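import Mathlib
set_option autoImplicit false

/-! # The Wirtinger derivative with respect to the conjugate variable: calculus -/

namespace Pool.Agent.Y251.CP

open MeasureTheory Set Metric Complex Filter
open scoped ENNReal ComplexConjugate Topology

/-- `φ` is real differentiable at `z` and `∂φ/∂(conj z) = d`. -/
def HasDbar (φ : ℂ → ℂ) (d z : ℂ) : Prop :=
  ∃ L : ℂ →L[ℝ] ℂ, HasFDerivAt φ L z ∧ (L 1 + I * L I) / 2 = d

theorem HasDbar.congr {φ : ℂ → ℂ} {d d' z : ℂ} (h : HasDbar φ d z) (e : d = d') :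
    HasDbar φ d' z := e ▸ h

theorem hasDbar_const (c z : ℂ) : HasDbar (fun _ => c) 0 z :=
  ⟨0, hasFDerivAt_const c z, by simp⟩

theorem hasDbar_id (z : ℂ) : HasDbar (fun w => w) 0 z :=
  ⟨ContinuousLinearMap.id ℝ ℂ, hasFDerivAt_id z, by simp⟩

theorem hasDbar_conj (z : ℂ) : HasDbar (fun w => conj w) 1 z := by
  refine ⟨(conjCLE : ℂ →L[ℝ] ℂ), (conjCLE : ℂ →L[ℝ] ℂ).hasFDerivAt, ?_⟩
  simp

theorem HasDbar.add {φ ψ : ℂ → ℂ} {a b z : ℂ} (h : HasDbar φ a z) (k : HasDbar ψ b z) :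
    HasDbar (fun w => φ w + ψ w) (a + b) z := by
  obtain ⟨L, hL, rfl⟩ := h
  obtain ⟨K, hK, rfl⟩ := k
  refine ⟨L + K, hL.add hK, ?_⟩
  simp only [_root_.add_apply]
  ring

theorem HasDbar.sub {φ ψ : ℂ → ℂ} {a b z : ℂ} (h : HasDbar φ a z) (k : HasDbar ψ b z) :
    HasDbar (fun w => φ w - ψ w) (a - b) z := by
  obtain ⟨L, hL, rfl⟩ := h
  obtain ⟨K, hK, rfl⟩ := k
  refine ⟨L - K, hL.sub hK, ?_⟩
  simp only [_root_.sub_apply]
  ring

theorem HasDbar.mul {φ ψ : ℂ → ℂ} {a b z : ℂ} (h : HasDbar φ a z) (k : HasDbar ψ b z) :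
    HasDbar (fun w => φ w * ψ w) (a * ψ z + φ z * b) z := by
  obtain ⟨L, hL, rfl⟩ := h
  obtain ⟨K, hK, rfl⟩ := k
  refine ⟨_, hL.mul hK, ?_⟩
  simp only [_root_.add_apply, _root_.smul_apply, smul_eq_mul]
  ring

/-- composition with a holomorphic function -/
theorem HasDbar.comp_holo {g φ : ℂ → ℂ} {a g' z : ℂ} (hg : HasDerivAt g g' (φ z))
    (h : HasDbar φ a z) : HasDbar (fun w => g (φ w)) (g' * a) z := by
  obtain ⟨L, hL, rfl⟩ := h
  have h1 : HasFDerivAt g ((ContinuousLinearMap.toSpanSingleton ℂ g').restrictScalars ℝ)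
      (φ z) := by
    exact (hg.hasFDerivAt).restrictScalars ℝ
  refine ⟨_, h1.comp z hL, ?_⟩
  simp only [ContinuousLinearMap.coe_comp, Function.comp_apply,
    ContinuousLinearMap.coe_restrictScalars', ContinuousLinearMap.toSpanSingleton_apply,
    smul_eq_mul]
  ring

theorem HasDbar.const_mul {φ : ℂ → ℂ} {a z : ℂ} (c : ℂ) (h : HasDbar φ a z) :
    HasDbar (fun w => c * φ w) (c * a) z := by
  have := (hasDbar_const c z).mul h
  exact this.congr (by ring)

theorem HasDbar.cexp {φ : ℂ → ℂ} {a z : ℂ} (h : HasDbar φ a z) :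
    HasDbar (fun w => Complex.exp (φ w)) (Complex.exp (φ z) * a) z :=
  HasDbar.comp_holo (Complex.hasDerivAt_exp (φ z)) h

theorem HasDbar.inv {φ : ℂ → ℂ} {a z : ℂ} (h : HasDbar φ a z) (h0 : φ z ≠ 0) :
    HasDbar (fun w => (φ w)⁻¹) (-(a / φ z ^ 2)) z := by
  have := HasDbar.comp_holo (hasDerivAt_inv h0) h
  refine this.congr ?_
  ring

theorem hasDbar_of_holo {F : ℂ → ℂ} {z : ℂ} (h : DifferentiableAt ℂ F z) : HasDbar F 0 z := by
  have := HasDbar.comp_holo h.hasDerivAt (hasDbar_id z)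
  exact this.congr (by ring)

/-- the conjugate of a holomorphic function -/
theorem hasDbar_conj_holo {F : ℂ → ℂ} {F' z : ℂ} (h : HasDerivAt F F' z) :
    HasDbar (fun w => conj (F w)) (conj F') z := by
  have h1 : HasFDerivAt F ((ContinuousLinearMap.toSpanSingleton ℂ F').restrictScalars ℝ) z :=
    (h.hasFDerivAt).restrictScalars ℝ
  have h0 : HasFDerivAt (fun w : ℂ => conj w) (conjCLE : ℂ →L[ℝ] ℂ) (F z) :=
    (conjCLE : ℂ →L[ℝ] ℂ).hasFDerivAt
  have h2 := HasFDerivAt.comp z h0 h1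
  refine ⟨_, h2, ?_⟩
  simp only [ContinuousLinearMap.coe_comp, Function.comp_apply,
    ContinuousLinearMap.coe_restrictScalars', ContinuousLinearMap.toSpanSingleton_apply,
    smul_eq_mul, ContinuousLinearEquiv.coe_coe, conjCLE_apply, map_mul, conj_I, one_mul, map_one]
  linear_combination (-(1 / 2) * conj F') * I_mul_I

end Pool.Agent.Y251.CP
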