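import Pool.Agent.Y251.CP.D5
set_option autoImplicit false

/-! # The extension operator of the paraboloid in three dimensions: the full estimate -/

namespace Pool.Agent.Y251.CP

open MeasureTheory Set Metric Complex Filter FourierTransform
open scoped ENNReal NNReal ComplexConjugate Topology RealInnerProductSpace

theorem vol_half : volume (ball (0 : ℂ) (1 / 2)) ≤ 1 := by
  rw [Complex.volume_ball]
  have h1 : (NNReal.pi : ℝ≥0∞) = ENNReal.ofReal Real.pi := by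
    rw [← NNReal.coe_real_pi, ENNReal.ofReal_coe_nnreal]
  rw [h1, ← ENNReal.ofReal_pow (by norm_num), ← ENNReal.ofReal_mul (by norm_num)]
  apply ENNReal.ofReal_le_one.2
  linarith [Real.pi_lt_four]

theorem lp_mono {p q : ℝ} (hp : 0 < p) (hpq : p < q) (u : ℂ → ℝ≥0∞) (hu : Measurable u)
    (hs : ∀ z, 1 / 2 ≤ ‖z‖ → u z = 0) :
    ∫⁻ z, u z ^ p ≤ (∫⁻ z, u z ^ q) ^ (p / q) := by
  have hq : 0 < q := by linarith
  have hr : 1 < q / p := (one_lt_div hp).2 hpq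
  have h0 : ∀ s : ℝ, 0 < s → ∫⁻ z, u z ^ s = ∫⁻ z in ball (0 : ℂ) (1 / 2), u z ^ s := by
    intro s hs'
    rw [← lintegral_indicator measurableSet_ball]
    refine lintegral_congr fun z => ?_
    by_cases hz : z ∈ ball (0 : ℂ) (1 / 2)
    · rw [indicator_of_mem hz]
    · rw [indicator_of_notMem hz, hs z (by simpa using hz), ENNReal.zero_rpow_of_pos hs']
  have h := jensen (volume.restrict (ball (0 : ℂ) (1 / 2))) hr (u := fun z => u z ^ p)
    (k := fun _ => 1) (hu.pow_const p).aemeasurable aemeasurable_const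
  simp only [mul_one, lintegral_const, Measure.restrict_apply MeasurableSet.univ, univ_inter,
    one_mul] at h
  rw [← h0 p hp] at h
  have h2 : ∫⁻ z in ball (0 : ℂ) (1 / 2), (u z ^ p) ^ (q / p) = ∫⁻ z, u z ^ q := by
    rw [h0 q hq]
    refine lintegral_congr fun z => ?_
    rw [← ENNReal.rpow_mul, mul_div_cancel₀ _ hp.ne']
  rw [h2] at h
  have h3 : (∫⁻ z, u z ^ p) ^ (q / p) ≤ ∫⁻ z, u z ^ q := by
    refine h.trans ?_
    calc (∫⁻ z, u z ^ q) * volume (ball (0 : ℂ) (1 / 2)) ^ (q / p - 1)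
        ≤ (∫⁻ z, u z ^ q) * 1 := by
          gcongr
          exact ENNReal.rpow_le_one vol_half (by linarith)
      _ = _ := mul_one _
  have h4 := ENNReal.rpow_le_rpow h3 (by positivity : 0 ≤ p / q)
  rw [← ENNReal.rpow_mul] at h4
  have h5 : q / p * (p / q) = 1 := by field_simp
  rwa [h5, ENNReal.rpow_one] at h4

theorem ext_sup (f : ℂ → ℂ) (ξ : ℂ × ℝ) : ‖ext f ξ‖ₑ ≤ ∫⁻ z, ‖f z‖ₑ := by
  unfold ext
  refine (enorm_integral_le_lintegral_enorm _).trans (le_of_eq ?_)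
  refine lintegral_congr fun z => ?_
  rw [enorm_mul]
  have h8 : ‖cexp (-(((z.re * ξ.1.re + z.im * ξ.1.im + ‖z‖ ^ 2 * ξ.2 : ℝ) : ℂ) * I))‖ₑ = 1 := by
    rw [← ofReal_norm, ← neg_mul, ← ofReal_neg, norm_exp_ofReal_mul_I, ENNReal.ofReal_one]
  rw [h8, one_mul]

theorem slice_small {q : ℝ} (hq : 2 < q) (f : ℂ → ℂ) (hf : Measurable f)
    (hfs : ∀ z, 1 / 2 ≤ ‖z‖ → f z = 0) (hfi : Integrable f) (hN : ∫⁻ z, ‖f z‖ₑ ^ q ≠ ∞) (t : ℝ) :
    ∫⁻ x, ‖ext f (x, t)‖ₑ ^ q ≤ ENNReal.ofReal ((2 * Real.pi) ^ 2) * ∫⁻ z, ‖f z‖ₑ ^ q := by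
  have hq0 : 0 < q := by linarith
  have hs : ∀ z, 1 / 2 ≤ ‖z‖ → ‖f z‖ₑ = 0 := fun z hz => by rw [hfs z hz, enorm_zero]
  have hA := lp_mono one_pos (by linarith) (fun z => ‖f z‖ₑ) hf.enorm hs (q := q)
  have hB := lp_mono two_pos hq (fun z => ‖f z‖ₑ) hf.enorm hs
  simp only [ENNReal.rpow_one] at hA
  simp only [ENNReal.rpow_two] at hB
  set N := ∫⁻ z, ‖f z‖ₑ ^ q with hNdef
  have hB2 : ∫⁻ z, ‖f z‖ₑ ^ 2 ≠ ∞ :=
    (hB.trans_lt (ENNReal.rpow_lt_top_of_nonneg (by positivity) hN)).ne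
  have hP := slice_planch f hf hfi hB2 t
  have hm : Measurable fun x => ‖ext f (x, t)‖ₑ ^ 2 :=
    ((ext_meas f hf).comp (measurable_id.prodMk measurable_const)).enorm.pow_const 2
  calc ∫⁻ x, ‖ext f (x, t)‖ₑ ^ q ≤ ∫⁻ x, (∫⁻ z, ‖f z‖ₑ) ^ (q - 2) * ‖ext f (x, t)‖ₑ ^ 2 := by
        refine lintegral_mono fun x => ?_
        have e1 : ‖ext f (x, t)‖ₑ ^ q = ‖ext f (x, t)‖ₑ ^ (q - 2) * ‖ext f (x, t)‖ₑ ^ 2 := by
          rw [← ENNReal.rpow_two, ← ENNReal.rpow_add_of_nonneg _ _ (by linarith) (by norm_num)]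
          congr 1
          ring
        rw [e1]
        exact mul_le_mul_left (ENNReal.rpow_le_rpow (ext_sup f _) (by linarith)) _
    _ = (∫⁻ z, ‖f z‖ₑ) ^ (q - 2) * (ENNReal.ofReal ((2 * Real.pi) ^ 2) * ∫⁻ z, ‖f z‖ₑ ^ 2) := by
        rw [lintegral_const_mul _ hm, hP]
    _ ≤ (N ^ (1 / q)) ^ (q - 2) * (ENNReal.ofReal ((2 * Real.pi) ^ 2) * N ^ (2 / q)) := by
        gcongr
    _ = ENNReal.ofReal ((2 * Real.pi) ^ 2) * (N ^ (1 / q * (q - 2)) * N ^ (2 / q)) := by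
        rw [← ENNReal.rpow_mul]
        ring
    _ = _ := by
        rw [← ENNReal.rpow_add_of_nonneg _ _ (mul_nonneg (by positivity) (by linarith))
          (by positivity)]
        have : 1 / q * (q - 2) + 2 / q = 1 := by field_simp; ring
        rw [this, ENNReal.rpow_one]

theorem t_int {q : ℝ} (hq : 3 < q) : ∃ C : ℝ≥0,
    ∫⁻ t : ℝ, {t : ℝ | 1 ≤ |t|}.indicator (fun t => ENNReal.ofReal (|t| ^ (2 - q))) t ≤ C := by
  have h1 : Integrable (fun t : ℝ => (1 + ‖t‖) ^ (-(q - 2))) :=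
    integrable_one_add_norm (by simp; linarith)
  refine ⟨(∫ t : ℝ, 2 ^ (q - 2) * (1 + ‖t‖) ^ (-(q - 2))).toNNReal, ?_⟩
  have h2 : ((∫ t : ℝ, 2 ^ (q - 2) * (1 + ‖t‖) ^ (-(q - 2))).toNNReal : ℝ≥0∞) =
      ∫⁻ t : ℝ, ENNReal.ofReal (2 ^ (q - 2) * (1 + ‖t‖) ^ (-(q - 2))) :=
    ofReal_integral_eq_lintegral_ofReal (h1.const_mul _)
      (Eventually.of_forall fun t => by positivity)
  rw [h2]
  refine lintegral_mono fun t => ?_
  by_cases ht : 1 ≤ |t|
  · rw [indicator_of_mem (by exact ht)]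
    apply ENNReal.ofReal_le_ofReal
    rw [Real.norm_eq_abs]
    have h3 : (1 + |t|) ≤ 2 * |t| := by linarith
    have h4 : (2 * |t|) ^ (-(q - 2)) ≤ (1 + |t|) ^ (-(q - 2)) :=
      Real.rpow_le_rpow_of_nonpos (by positivity) h3 (by linarith)
    calc |t| ^ (2 - q) = 2 ^ (q - 2) * (2 * |t|) ^ (-(q - 2)) := by
          rw [Real.mul_rpow (by norm_num) (abs_nonneg t), ← mul_assoc,
            ← Real.rpow_add (by norm_num)]
          norm_num
      _ ≤ _ := by gcongr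
  · rw [indicator_of_notMem (by exact ht)]
    exact zero_le

/-- **the estimate for one-sided derivatives** -/
theorem main1 {q : ℝ} (hq : 3 < q) : ∃ C : ℝ≥0, 0 < C ∧ ∀ (f a : ℂ → ℂ) (ν : Measure ℂ),
    Measurable f → (∀ z, 1 / 2 ≤ ‖z‖ → f z = 0) → WD f ν a →
    ∫⁻ ξ, ‖ext f ξ‖ₑ ^ q ≤ C * ((∫⁻ z, ‖f z‖ₑ ^ q) + ∫⁻ z, pot ν a z ^ q) := by
  obtain ⟨C1, hC1⟩ := slice_large (q := q) (by linarith)
  obtain ⟨C2, hC2⟩ := t_int hq
  set K : ℝ≥0 := ((2 * Real.pi) ^ 2).toNNReal with hK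
  refine ⟨C1 * C2 + 2 * K + 1, by positivity, fun f a ν hf hfs hw => ?_⟩
  by_cases hN : ∫⁻ z, ‖f z‖ₑ ^ q = ∞
  · rw [hN, top_add, ENNReal.mul_top]
    · exact le_top
    · simp
  have hq0 : 0 < q := by linarith
  have hfi : Integrable f := by
    refine ⟨hf.aestronglyMeasurable, ?_⟩
    have hA := lp_mono one_pos (by linarith) (fun z => ‖f z‖ₑ) hf.enorm
      (fun z hz => by rw [hfs z hz, enorm_zero]) (q := q)
    simp only [ENNReal.rpow_one] at hA
    exact hA.trans_lt (ENNReal.rpow_lt_top_of_nonneg (by positivity) hN)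
  set N := (∫⁻ z, ‖f z‖ₑ ^ q) + ∫⁻ z, pot ν a z ^ q with hNdef
  have hm : Measurable fun ξ : ℂ × ℝ => ‖ext f ξ‖ₑ ^ q := (ext_meas f hf).enorm.pow_const q
  have hset : MeasurableSet {t : ℝ | 1 ≤ |t|} := measurableSet_le measurable_const measurable_norm
  have hset2 : MeasurableSet (Ioo (-1 : ℝ) 1) := measurableSet_Ioo
  have hb : ∀ t : ℝ, ∫⁻ x, ‖ext f (x, t)‖ₑ ^ q ≤
      (C1 * {t : ℝ | 1 ≤ |t|}.indicator (fun t => ENNReal.ofReal (|t| ^ (2 - q))) t +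
        (Ioo (-1 : ℝ) 1).indicator (fun _ => (K : ℝ≥0∞)) t) * N := by
    intro t
    by_cases ht : 1 ≤ |t|
    · rw [indicator_of_mem (by exact ht), indicator_of_notMem, add_zero]
      · exact hC1 f a ν hf hfs hfi hw t (by
          intro h0
          rw [h0, abs_zero] at ht
          linarith)
      · rintro ⟨h1, h2⟩
        exact absurd (abs_lt.2 ⟨h1, h2⟩) (not_lt.2 ht)
    · have ht2 : t ∈ Ioo (-1 : ℝ) 1 := abs_lt.1 (not_le.1 ht)
      rw [indicator_of_notMem (by exact ht), indicator_of_mem ht2, mul_zero, zero_add]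
      refine (slice_small (by linarith) f hf hfs hfi hN t).trans ?_
      have e1 : ENNReal.ofReal ((2 * Real.pi) ^ 2) = K := rfl
      rw [e1, hNdef]
      gcongr
      exact le_self_add
  have hm1 : Measurable fun t : ℝ => (C1 : ℝ≥0∞) *
      {t : ℝ | 1 ≤ |t|}.indicator (fun t => ENNReal.ofReal (|t| ^ (2 - q))) t := by
    refine Measurable.const_mul (Measurable.indicator ?_ hset) _
    exact ((measurable_norm).pow_const _).ennreal_ofReal
  calc ∫⁻ ξ, ‖ext f ξ‖ₑ ^ q = ∫⁻ t : ℝ, ∫⁻ x : ℂ, ‖ext f (x, t)‖ₑ ^ q := by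
        rw [Measure.volume_eq_prod, lintegral_prod_symm _ hm.aemeasurable]
    _ ≤ ∫⁻ t : ℝ, (C1 * {t : ℝ | 1 ≤ |t|}.indicator
        (fun t => ENNReal.ofReal (|t| ^ (2 - q))) t +
        (Ioo (-1 : ℝ) 1).indicator (fun _ => (K : ℝ≥0∞)) t) * N := lintegral_mono hb
    _ = (C1 * (∫⁻ t : ℝ, {t : ℝ | 1 ≤ |t|}.indicator
        (fun t => ENNReal.ofReal (|t| ^ (2 - q))) t) + K * 2) * N := by
        have hm2 : Measurable fun t : ℝ => (C1 : ℝ≥0∞) * {t : ℝ | 1 ≤ |t|}.indicator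
            (fun t => ENNReal.ofReal (|t| ^ (2 - q))) t +
            (Ioo (-1 : ℝ) 1).indicator (fun _ => (K : ℝ≥0∞)) t :=
          hm1.add (measurable_const.indicator hset2)
        rw [lintegral_mul_const _ hm2,
          lintegral_add_left hm1, lintegral_const_mul, lintegral_indicator hset2,
          lintegral_const, Measure.restrict_apply MeasurableSet.univ, univ_inter,
          Real.volume_Ioo]
        · norm_num
        · exact Measurable.indicator ((measurable_norm).pow_const _).ennreal_ofReal hset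
    _ ≤ (C1 * C2 + K * 2) * N := by gcongr
    _ ≤ _ := by
        gcongr
        push_cast
        rw [mul_comm (K : ℝ≥0∞) 2]
        exact le_self_add

end Pool.Agent.Y251.CP
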