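import Pool.Agent.Y251.CP.D3
set_option autoImplicit false

/-! # Potentials of measures on circles -/

namespace Pool.Agent.Y251.CP

open MeasureTheory Set Metric Complex Filter
open scoped ENNReal NNReal ComplexConjugate Topology

theorem inv_rpow_ofReal {x α : ℝ} (hx : 0 < x) :
    ((ENNReal.ofReal x)⁻¹) ^ α = ENNReal.ofReal (x ^ (-α)) := by
  rw [ENNReal.inv_rpow, ENNReal.ofReal_rpow_of_pos hx, ← ENNReal.ofReal_inv_of_pos
    (Real.rpow_pos_of_pos hx _), Real.rpow_neg hx.le]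

theorem sing_lt {E : Type*} [NormedAddCommGroup E] [NormedSpace ℝ E] [FiniteDimensional ℝ E]
    [MeasurableSpace E] [BorelSpace E] (μ : Measure E) [μ.IsAddHaarMeasure]
    (hd : 1 ≤ Module.finrank ℝ E) {α : ℝ} (hα : α < Module.finrank ℝ E) (r : ℝ) :
    ∫⁻ x in ball (0 : E) r, (‖x‖ₑ⁻¹) ^ α ∂μ < ∞ := by
  have hnt : Nontrivial E := by
    apply Module.nontrivial_of_finrank_pos (R := ℝ)
    omega
  have h1 : IntegrableOn (fun x : E => ‖x‖ ^ (-α)) (ball 0 r) μ := by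
    refine integrableOn_ball_of_norm_le_rpow hd hα (C := 1) ?_ ?_
    · refine Eventually.of_forall fun x => ?_
      rw [one_mul, Real.norm_of_nonneg (by positivity)]
    · exact (measurable_norm.pow_const _).aestronglyMeasurable
  refine lt_of_le_of_lt (le_of_eq ?_) h1.2
  have h0 : ∀ᵐ x ∂(μ.restrict (ball (0 : E) r)), x ≠ 0 := by
    refine ae_restrict_of_ae ?_
    rw [ae_iff]
    simp
  refine lintegral_congr_ae ?_
  filter_upwards [h0] with x hx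
  have hx' : 0 < ‖x‖ := norm_pos_iff.2 hx
  rw [← ofReal_norm, inv_rpow_ofReal hx', ← ofReal_norm, Real.norm_of_nonneg (by positivity)]

theorem sin_lt {β : ℝ} (h0 : 0 ≤ β) (h1 : β < 1) :
    ∫⁻ s in Icc (-(2 * Real.pi)) (2 * Real.pi), ((ENNReal.ofReal |Real.sin s|)⁻¹) ^ β < ∞ := by
  have hpi := Real.pi_pos
  set G : ℝ → ℝ≥0∞ := fun u => ((ENNReal.ofReal (2 / Real.pi * |u|))⁻¹) ^ β with hG
  have hGm : Measurable G := by
    rw [hG]
    fun_prop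
  have hGb : ∫⁻ u in ball (0 : ℝ) (5 * Real.pi), G u < ∞ := by
    have h2 := sing_lt (volume : Measure ℝ) (by simp) (α := β) (by simpa using h1) (5 * Real.pi)
    have h3 : ∀ u : ℝ, G u ≤ ENNReal.ofReal ((2 / Real.pi)⁻¹ ^ β) * (‖u‖ₑ⁻¹) ^ β := by
      intro u
      rw [hG]
      simp only
      rw [ENNReal.ofReal_mul (by positivity), ENNReal.mul_inv (Or.inr ENNReal.ofReal_ne_top)
        (Or.inl ENNReal.ofReal_ne_top), ENNReal.mul_rpow_of_nonneg _ _ h0,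
        ← ENNReal.ofReal_inv_of_pos (by positivity), ENNReal.ofReal_rpow_of_pos (by positivity)]
      rw [← ofReal_norm, Real.norm_eq_abs]
    calc ∫⁻ u in ball (0 : ℝ) (5 * Real.pi), G u ≤ ∫⁻ u in ball (0 : ℝ) (5 * Real.pi),
          ENNReal.ofReal ((2 / Real.pi)⁻¹ ^ β) * (‖u‖ₑ⁻¹) ^ β := lintegral_mono h3
      _ = ENNReal.ofReal ((2 / Real.pi)⁻¹ ^ β) *
          ∫⁻ u in ball (0 : ℝ) (5 * Real.pi), (‖u‖ₑ⁻¹) ^ β :=
          lintegral_const_mul' _ _ ENNReal.ofReal_ne_top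
      _ < ∞ := ENNReal.mul_lt_top ENNReal.ofReal_lt_top h2
  have hpt : ∀ s ∈ Icc (-(2 * Real.pi)) (2 * Real.pi), ((ENNReal.ofReal |Real.sin s|)⁻¹) ^ β ≤
      ∑ k ∈ Finset.Icc (-2 : ℤ) 2, G (s - k * Real.pi) := by
    intro s hs
    set k := round (s / Real.pi) with hk
    have hr := abs_sub_round (s / Real.pi)
    rw [← hk] at hr
    have hr2 : |s - k * Real.pi| ≤ Real.pi / 2 := by
      have : s - k * Real.pi = (s / Real.pi - k) * Real.pi := by field_simp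
      rw [this, abs_mul, abs_of_pos hpi]
      nlinarith
    have hk1 : k ∈ Finset.Icc (-2 : ℤ) 2 := by
      rw [abs_le] at hr2
      obtain ⟨h2, h3⟩ := hs
      have h4 : (k : ℝ) * Real.pi < 3 * Real.pi := by linarith
      have h5 : (-3 : ℝ) * Real.pi < k * Real.pi := by linarith
      have h6 : (k : ℝ) < 3 := lt_of_mul_lt_mul_right h4 hpi.le
      have h7 : (-3 : ℝ) < k := lt_of_mul_lt_mul_right h5 hpi.le
      have h8 : k < 3 := by exact_mod_cast h6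
      have h9 : -3 < k := by exact_mod_cast h7
      rw [Finset.mem_Icc]
      omega
    refine le_trans ?_ (Finset.single_le_sum (f := fun k : ℤ => G (s - k * Real.pi))
      (fun _ _ => zero_le) hk1)
    simp only [hG]
    refine ENNReal.rpow_le_rpow (ENNReal.inv_le_inv.2 (ENNReal.ofReal_le_ofReal ?_)) h0
    refine (Real.mul_abs_le_abs_sin hr2).trans (le_of_eq ?_)
    rw [Real.sin_sub_int_mul_pi, abs_mul, abs_zpow, abs_neg, abs_one, one_zpow, one_mul]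
  have hone : ∀ k ∈ Finset.Icc (-2 : ℤ) 2,
      ∫⁻ s in Icc (-(2 * Real.pi)) (2 * Real.pi), G (s - k * Real.pi) < ∞ := by
    intro k hk
    rw [Finset.mem_Icc] at hk
    have hk1 : (-2 : ℝ) ≤ k := by exact_mod_cast hk.1
    have hk2 : (k : ℝ) ≤ 2 := by exact_mod_cast hk.2
    refine lt_of_le_of_lt ?_ hGb
    rw [← lintegral_indicator measurableSet_Icc, ← lintegral_indicator measurableSet_ball,
      ← lintegral_sub_right_eq_self ((ball (0 : ℝ) (5 * Real.pi)).indicator fun u => G u)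
        (k * Real.pi)]
    refine lintegral_mono fun s => ?_
    by_cases hs : s ∈ Icc (-(2 * Real.pi)) (2 * Real.pi)
    · rw [indicator_of_mem hs, indicator_of_mem]
      rw [mem_ball_zero_iff, Real.norm_eq_abs, abs_lt]
      constructor
      · nlinarith [hs.1]
      · nlinarith [hs.2]
    · rw [indicator_of_notMem hs]
      exact zero_le
  calc ∫⁻ s in Icc (-(2 * Real.pi)) (2 * Real.pi), ((ENNReal.ofReal |Real.sin s|)⁻¹) ^ β
      ≤ ∫⁻ s in Icc (-(2 * Real.pi)) (2 * Real.pi),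
        ∑ k ∈ Finset.Icc (-2 : ℤ) 2, G (s - k * Real.pi) :=
        setLIntegral_mono' measurableSet_Icc hpt
    _ = ∑ k ∈ Finset.Icc (-2 : ℤ) 2,
        ∫⁻ s in Icc (-(2 * Real.pi)) (2 * Real.pi), G (s - k * Real.pi) :=
        lintegral_finsetSum _ fun k _ => hGm.comp (measurable_id.sub_const _)
    _ < ∞ := ENNReal.sum_lt_top.2 hone

/-- potentials of arc length on a circle -/
theorem circ_pot {β : ℝ} (h0 : 0 ≤ β) (h1 : β < 1) : ∃ C : ℝ≥0, ∀ ρ : ℝ, 0 < ρ → ∀ z : ℂ,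
    ∫⁻ θ in Ioc (-Real.pi) Real.pi, (‖z - ρ * cexp (θ * I)‖ₑ⁻¹) ^ β ≤
      C * ENNReal.ofReal (ρ ^ (-β)) := by
  have hpi := Real.pi_pos
  set S := ∫⁻ s in Icc (-(2 * Real.pi)) (2 * Real.pi),
    ((ENNReal.ofReal |Real.sin s|)⁻¹) ^ β with hS
  have hSt : S < ∞ := sin_lt h0 h1
  refine ⟨S.toNNReal, fun ρ hρ z => ?_⟩
  rw [ENNReal.coe_toNNReal hSt.ne]
  set α := arg z with hα
  have hα1 := neg_pi_lt_arg z
  have hα2 := arg_le_pi z
  have hpt : ∀ θ : ℝ, (‖z - ρ * cexp (θ * I)‖ₑ⁻¹) ^ β ≤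
      ((ENNReal.ofReal |Real.sin (θ - α)|)⁻¹) ^ β * ENNReal.ofReal (ρ ^ (-β)) := by
    intro θ
    have e1 : ENNReal.ofReal (ρ ^ (-β)) = ((ENNReal.ofReal ρ)⁻¹) ^ β :=
      (inv_rpow_ofReal hρ).symm
    rw [e1, ← ENNReal.mul_rpow_of_nonneg _ _ h0, ← ENNReal.mul_inv
      (Or.inr ENNReal.ofReal_ne_top) (Or.inl ENNReal.ofReal_ne_top),
      ← ENNReal.ofReal_mul (abs_nonneg _), ← ofReal_norm]
    refine ENNReal.rpow_le_rpow (ENNReal.inv_le_inv.2 (ENNReal.ofReal_le_ofReal ?_)) h0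
    have e2 : cexp (-(α * I)) * (z - ρ * cexp (θ * I)) =
        ‖z‖ - ρ * cexp (((θ - α : ℝ) : ℂ) * I) := by
      have e3 : z = ‖z‖ * cexp (α * I) := (norm_mul_exp_arg_mul_I z).symm
      rw [mul_sub]
      conv_lhs => rw [e3]
      have e4 : cexp (-(α * I)) * (‖z‖ * cexp (α * I)) = ‖z‖ := by
        rw [mul_left_comm, ← Complex.exp_add]
        simp
      rw [e4, mul_left_comm, ← Complex.exp_add]
      congr 3
      push_cast
      ring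
    have e5 : ‖z - ρ * cexp (θ * I)‖ = ‖cexp (-(α * I)) * (z - ρ * cexp (θ * I))‖ := by
      rw [norm_mul, ← neg_mul, ← ofReal_neg, norm_exp_ofReal_mul_I, one_mul]
    rw [e5, e2]
    refine le_trans (le_of_eq ?_) (abs_im_le_norm _)
    rw [sub_im, ofReal_im, zero_sub, abs_neg, im_ofReal_mul, exp_ofReal_mul_I_im, abs_mul,
      abs_of_pos hρ, mul_comm]
  have hm : Measurable fun s : ℝ => ((ENNReal.ofReal |Real.sin s|)⁻¹) ^ β := by fun_prop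
  calc ∫⁻ θ in Ioc (-Real.pi) Real.pi, (‖z - ρ * cexp (θ * I)‖ₑ⁻¹) ^ β
      ≤ ∫⁻ θ in Ioc (-Real.pi) Real.pi,
        ((ENNReal.ofReal |Real.sin (θ - α)|)⁻¹) ^ β * ENNReal.ofReal (ρ ^ (-β)) :=
        lintegral_mono hpt
    _ = (∫⁻ θ in Ioc (-Real.pi) Real.pi, ((ENNReal.ofReal |Real.sin (θ - α)|)⁻¹) ^ β) *
        ENNReal.ofReal (ρ ^ (-β)) :=
        lintegral_mul_const _ (hm.comp (measurable_id.sub_const α))
    _ ≤ S * ENNReal.ofReal (ρ ^ (-β)) := by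
        refine mul_le_mul_left ?_ _
        rw [hS, ← lintegral_indicator measurableSet_Icc, ← lintegral_indicator measurableSet_Ioc,
          ← lintegral_sub_right_eq_self ((Icc (-(2 * Real.pi)) (2 * Real.pi)).indicator
            fun s => ((ENNReal.ofReal |Real.sin s|)⁻¹) ^ β) α]
        refine lintegral_mono fun s => ?_
        by_cases hs : s ∈ Ioc (-Real.pi) Real.pi
        · rw [indicator_of_mem hs, indicator_of_mem]
          constructor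
          · linarith [hs.1]
          · linarith [hs.2]
        · rw [indicator_of_notMem hs]
          exact zero_le

theorem decay_lt {q : ℝ} (hq : 2 < q) : ∃ C : ℝ≥0,
    ∫⁻ z : ℂ, {z : ℂ | 1 ≤ ‖z‖}.indicator (fun z => ENNReal.ofReal (‖z‖ ^ (-q))) z ≤ C := by
  have h1 : Integrable (fun z : ℂ => (1 + ‖z‖) ^ (-q)) :=
    integrable_one_add_norm (by rw [Complex.finrank_real_complex]; exact_mod_cast hq)
  refine ⟨(∫ z : ℂ, 2 ^ q * (1 + ‖z‖) ^ (-q)).toNNReal, ?_⟩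
  have h2 : ((∫ z : ℂ, 2 ^ q * (1 + ‖z‖) ^ (-q)).toNNReal : ℝ≥0∞) =
      ∫⁻ z : ℂ, ENNReal.ofReal (2 ^ q * (1 + ‖z‖) ^ (-q)) :=
    ofReal_integral_eq_lintegral_ofReal (h1.const_mul _)
      (Eventually.of_forall fun t => by positivity)
  rw [h2]
  refine lintegral_mono fun z => ?_
  by_cases hz : 1 ≤ ‖z‖
  · rw [indicator_of_mem (by exact hz)]
    apply ENNReal.ofReal_le_ofReal
    have h3 : (1 + ‖z‖) ≤ 2 * ‖z‖ := by linarith
    have h4 : (2 * ‖z‖) ^ (-q) ≤ (1 + ‖z‖) ^ (-q) :=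
      Real.rpow_le_rpow_of_nonpos (by positivity) h3 (by linarith)
    calc ‖z‖ ^ (-q) = 2 ^ q * (2 * ‖z‖) ^ (-q) := by
          rw [Real.mul_rpow (by norm_num) (norm_nonneg z), ← mul_assoc,
            ← Real.rpow_add (by norm_num)]
          norm_num
      _ ≤ _ := by gcongr
  · rw [indicator_of_notMem (by exact hz)]
    exact zero_le

theorem pi_univ : (volume.restrict (Ioc (-Real.pi) Real.pi)) univ =
    ENNReal.ofReal (2 * Real.pi) := by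
  rw [Measure.restrict_apply MeasurableSet.univ, univ_inter, Real.volume_Ioc]
  congr 1
  ring

/-- the kernel -/
noncomputable def kc (ρ : ℝ) (z : ℂ) (θ : ℝ) : ℝ≥0∞ := ‖z - ρ * cexp (θ * I)‖ₑ⁻¹

theorem kc_meas (ρ : ℝ) : Measurable (Function.uncurry (kc ρ)) := by
  have : Continuous fun p : ℂ × ℝ => p.1 - ρ * cexp (p.2 * I) := by fun_prop
  exact this.measurable.enorm.inv

theorem kc_meas' (ρ : ℝ) (z : ℂ) : Measurable (kc ρ z) := by
  have h : Continuous fun θ : ℝ => z - ρ * cexp (θ * I) := by fun_prop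
  have h2 : kc ρ z = fun θ : ℝ => ‖z - ρ * cexp (θ * I)‖ₑ⁻¹ := rfl
  rw [h2]
  exact h.measurable.enorm.inv

theorem kc_meas'' (ρ : ℝ) (θ : ℝ) : Measurable fun z => kc ρ z θ := by
  have h : Continuous fun z : ℂ => z - ρ * cexp (θ * I) := by fun_prop
  have h2 : (fun z => kc ρ z θ) = fun z : ℂ => ‖z - ρ * cexp (θ * I)‖ₑ⁻¹ := rfl
  rw [h2]
  exact h.measurable.enorm.inv

theorem circ_near {q : ℝ} (hq : 2 < q) : ∃ C : ℝ≥0, ∀ ρ : ℝ, 0 < ρ → ρ ≤ 1 / 2 →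
    ∀ u : ℝ → ℝ≥0∞, Measurable u → ∀ z : ℂ,
    (∫⁻ θ in Ioc (-Real.pi) Real.pi, u θ * (ENNReal.ofReal ρ * kc ρ z θ)) ^ q ≤
      (∫⁻ θ in Ioc (-Real.pi) Real.pi, u θ ^ q * kc ρ z θ ^ (3 / 2 : ℝ)) * C := by
  have hq0 : 0 < q := by linarith
  have hq1 : 0 < q - 1 := by linarith
  set β := (q - 3 / 2) / (q - 1) with hβ
  have hβ0 : 0 ≤ β := div_nonneg (by linarith) hq1.le
  have hβ1 : β < 1 := (div_lt_one hq1).2 (by linarith)
  obtain ⟨C1, hC1⟩ := circ_pot hβ0 hβ1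
  refine ⟨C1 ^ (q - 1), fun ρ hρ hρ2 u hu z => ?_⟩
  rw [ENNReal.coe_rpow_of_nonneg _ hq1.le]
  set μ : Measure ℝ := volume.restrict (Ioc (-Real.pi) Real.pi) with hμ
  refine (split32 μ (by linarith) hu.aemeasurable
    ((kc_meas' ρ z).const_mul _).aemeasurable).trans ?_
  have e1 : ∀ θ, u θ ^ q * (ENNReal.ofReal ρ * kc ρ z θ) ^ (3 / 2 : ℝ) =
      ENNReal.ofReal ρ ^ (3 / 2 : ℝ) * (u θ ^ q * kc ρ z θ ^ (3 / 2 : ℝ)) := by
    intro θ
    rw [ENNReal.mul_rpow_of_nonneg _ _ (by norm_num)]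
    ring
  have e2 : ∀ θ, (ENNReal.ofReal ρ * kc ρ z θ) ^ β = ENNReal.ofReal ρ ^ β * kc ρ z θ ^ β := by
    intro θ
    rw [ENNReal.mul_rpow_of_nonneg _ _ hβ0]
  simp_rw [← hβ, e1, e2]
  have hρt : ∀ s : ℝ, 0 ≤ s → ENNReal.ofReal ρ ^ s ≠ ∞ := fun s hs =>
    (ENNReal.rpow_lt_top_of_nonneg hs ENNReal.ofReal_ne_top).ne
  rw [lintegral_const_mul' _ _ (hρt _ (by norm_num)), lintegral_const_mul' _ _ (hρt _ hβ0)]
  have e3 : ENNReal.ofReal ρ ^ β * ∫⁻ θ, kc ρ z θ ^ β ∂μ ≤ C1 := by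
    calc ENNReal.ofReal ρ ^ β * ∫⁻ θ, kc ρ z θ ^ β ∂μ
        ≤ ENNReal.ofReal ρ ^ β * (C1 * ENNReal.ofReal (ρ ^ (-β))) :=
          mul_le_mul_right (hC1 ρ hρ z) _
      _ = C1 * (ENNReal.ofReal (ρ ^ β) * ENNReal.ofReal (ρ ^ (-β))) := by
          rw [ENNReal.ofReal_rpow_of_pos hρ]
          ring
      _ = C1 := by
          rw [← ENNReal.ofReal_mul (by positivity), ← Real.rpow_add hρ]
          simp
  have e4 : ENNReal.ofReal ρ ^ (3 / 2 : ℝ) ≤ 1 := by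
    apply ENNReal.rpow_le_one _ (by norm_num)
    exact ENNReal.ofReal_le_one.2 (by linarith)
  refine mul_le_mul' ?_ (ENNReal.rpow_le_rpow e3 hq1.le)
  calc ENNReal.ofReal ρ ^ (3 / 2 : ℝ) * ∫⁻ θ, u θ ^ q * kc ρ z θ ^ (3 / 2 : ℝ) ∂μ
      ≤ 1 * ∫⁻ θ, u θ ^ q * kc ρ z θ ^ (3 / 2 : ℝ) ∂μ := mul_le_mul_left e4 _
    _ = _ := one_mul _

theorem circ_far {q : ℝ} (hq : 2 < q) : ∃ C : ℝ≥0, ∀ ρ : ℝ, 0 < ρ → ρ ≤ 1 / 2 →
    ∀ u : ℝ → ℝ≥0∞, Measurable u → ∀ z : ℂ, 1 ≤ ‖z‖ →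
    (∫⁻ θ in Ioc (-Real.pi) Real.pi, u θ * (ENNReal.ofReal ρ * kc ρ z θ)) ^ q ≤
      ENNReal.ofReal (‖z‖ ^ (-q)) * (C * ∫⁻ θ in Ioc (-Real.pi) Real.pi, u θ ^ q) := by
  have hq0 : 0 < q := by linarith
  have hq1 : 0 < q - 1 := by linarith
  refine ⟨((2 : ℝ) ^ q).toNNReal * (2 * Real.pi).toNNReal ^ (q - 1), fun ρ hρ hρ2 u hu z hz => ?_⟩
  rw [ENNReal.coe_mul, ENNReal.coe_rpow_of_nonneg _ hq1.le]
  change _ ≤ ENNReal.ofReal (‖z‖ ^ (-q)) * (ENNReal.ofReal ((2 : ℝ) ^ q) *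
    ENNReal.ofReal (2 * Real.pi) ^ (q - 1) * ∫⁻ θ in Ioc (-Real.pi) Real.pi, u θ ^ q)
  set μ : Measure ℝ := volume.restrict (Ioc (-Real.pi) Real.pi) with hμ
  have hz0 : 0 < ‖z‖ := by linarith
  have e1 : ∀ θ, ENNReal.ofReal ρ * kc ρ z θ ≤ ENNReal.ofReal (2 * ‖z‖⁻¹) := by
    intro θ
    have e2 : ‖z‖ / 2 ≤ ‖z - ρ * cexp (θ * I)‖ := by
      have := norm_sub_norm_le z (ρ * cexp (θ * I))
      rw [norm_mul, norm_exp_ofReal_mul_I, mul_one, norm_real, Real.norm_of_nonneg hρ.le] at this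
      linarith
    have e3 : 0 < ‖z - ρ * cexp (θ * I)‖ := by linarith
    unfold kc
    rw [← ofReal_norm, ← ENNReal.ofReal_inv_of_pos e3, ← ENNReal.ofReal_mul hρ.le]
    apply ENNReal.ofReal_le_ofReal
    have e5 : ‖z - ρ * cexp (θ * I)‖⁻¹ ≤ (‖z‖ / 2)⁻¹ := inv_anti₀ (by positivity) e2
    have e6 : (‖z‖ / 2)⁻¹ = 2 * ‖z‖⁻¹ := by field_simp
    rw [← e6]
    have e7 : 0 ≤ (‖z‖ / 2)⁻¹ := by positivity
    calc ρ * ‖z - ρ * cexp (θ * I)‖⁻¹ ≤ 1 * (‖z‖ / 2)⁻¹ :=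
          mul_le_mul (by linarith) e5 (by positivity) (by norm_num)
      _ = _ := one_mul _
  have e4 := jensen μ (by linarith : 1 < q) hu.aemeasurable
    (aemeasurable_const (b := (1 : ℝ≥0∞)))
  simp only [mul_one, lintegral_const, one_mul] at e4
  rw [pi_univ] at e4
  calc (∫⁻ θ, u θ * (ENNReal.ofReal ρ * kc ρ z θ) ∂μ) ^ q
      ≤ (∫⁻ θ, u θ * ENNReal.ofReal (2 * ‖z‖⁻¹) ∂μ) ^ q :=
        ENNReal.rpow_le_rpow (lintegral_mono fun θ => mul_le_mul_right (e1 θ) _) hq0.le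
    _ = (∫⁻ θ, u θ ∂μ) ^ q * ENNReal.ofReal (2 * ‖z‖⁻¹) ^ q := by
        rw [lintegral_mul_const _ hu, ENNReal.mul_rpow_of_nonneg _ _ hq0.le]
    _ ≤ ((∫⁻ θ, u θ ^ q ∂μ) * ENNReal.ofReal (2 * Real.pi) ^ (q - 1)) *
        ENNReal.ofReal (2 * ‖z‖⁻¹) ^ q := mul_le_mul_left e4 _
    _ = _ := by
        have e9 : ENNReal.ofReal (2 * ‖z‖⁻¹) ^ q =
            ENNReal.ofReal ((2 : ℝ) ^ q) * ENNReal.ofReal (‖z‖ ^ (-q)) := by
          rw [ENNReal.ofReal_rpow_of_pos (by positivity), Real.mul_rpow (by norm_num)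
            (by positivity), ENNReal.ofReal_mul (by positivity), Real.inv_rpow hz0.le,
            ← Real.rpow_neg hz0.le]
        rw [e9]
        ring

theorem near_int {q : ℝ} : ∃ C : ℝ≥0, ∀ ρ : ℝ, 0 < ρ → ρ ≤ 1 / 2 →
    ∀ u : ℝ → ℝ≥0∞, Measurable u →
    ∫⁻ z in ball (0 : ℂ) 1, ∫⁻ θ in Ioc (-Real.pi) Real.pi, u θ ^ q * kc ρ z θ ^ (3 / 2 : ℝ) ≤
      C * ∫⁻ θ in Ioc (-Real.pi) Real.pi, u θ ^ q := by
  have hS := sing_lt (volume : Measure ℂ) (by rw [Complex.finrank_real_complex]; norm_num)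
    (α := 3 / 2) (by rw [Complex.finrank_real_complex]; norm_num) 2
  refine ⟨(∫⁻ x in ball (0 : ℂ) 2, (‖x‖ₑ⁻¹) ^ (3 / 2 : ℝ)).toNNReal, fun ρ hρ hρ2 u hu => ?_⟩
  rw [ENNReal.coe_toNNReal hS.ne]
  have hm : Measurable fun p : ℂ × ℝ => u p.2 ^ q * kc ρ p.1 p.2 ^ (3 / 2 : ℝ) :=
    ((hu.comp measurable_snd).pow_const q).mul ((kc_meas ρ).pow_const _)
  rw [lintegral_lintegral_swap hm.aemeasurable, ← lintegral_const_mul _ (hu.pow_const q)]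
  refine lintegral_mono fun θ => ?_
  rw [lintegral_const_mul _ ((kc_meas'' ρ θ).pow_const _), mul_comm]
  refine mul_le_mul_left ?_ _
  rw [← lintegral_indicator measurableSet_ball,
    ← lintegral_indicator measurableSet_ball, ← lintegral_sub_right_eq_self
    ((ball (0 : ℂ) 2).indicator fun x => (‖x‖ₑ⁻¹) ^ (3 / 2 : ℝ)) (ρ * cexp (θ * I))]
  refine lintegral_mono fun z => ?_
  by_cases hz : z ∈ ball (0 : ℂ) 1
  · rw [indicator_of_mem hz, indicator_of_mem]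
    · exact le_rfl
    · rw [mem_ball_zero_iff] at hz ⊢
      have := norm_sub_le z (ρ * cexp (θ * I))
      rw [norm_mul, norm_exp_ofReal_mul_I, mul_one, norm_real,
        Real.norm_of_nonneg hρ.le] at this
      linarith
  · rw [indicator_of_notMem hz]
    exact zero_le

/-- the potential of a measure on a circle of radius `ρ ≤ 1/2` belongs to `L^q` -/
theorem disc_pot {q : ℝ} (hq : 2 < q) : ∃ C : ℝ≥0, ∀ ρ : ℝ, 0 < ρ → ρ ≤ 1 / 2 → ∀ c : ℂ,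
    ∀ u : ℝ → ℝ≥0∞, Measurable u →
    ∫⁻ z : ℂ, (∫⁻ θ in Ioc (-Real.pi) Real.pi,
      u θ * (ENNReal.ofReal ρ * ‖z - (c + ρ * cexp (θ * I))‖ₑ⁻¹)) ^ q ≤
      C * ∫⁻ θ in Ioc (-Real.pi) Real.pi, u θ ^ q := by
  obtain ⟨C1, hC1⟩ := circ_near hq
  obtain ⟨C2, hC2⟩ := decay_lt hq
  obtain ⟨C3, hC3⟩ := circ_far hq
  obtain ⟨C4, hC4⟩ := near_int (q := q)
  refine ⟨C4 * C1 + C2 * C3, fun ρ hρ hρ2 c u hu => ?_⟩
  set N := ∫⁻ θ in Ioc (-Real.pi) Real.pi, u θ ^ q with hN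
  -- translation
  have h0 : ∫⁻ z : ℂ, (∫⁻ θ in Ioc (-Real.pi) Real.pi,
      u θ * (ENNReal.ofReal ρ * ‖z - (c + ρ * cexp (θ * I))‖ₑ⁻¹)) ^ q =
      ∫⁻ z : ℂ, (∫⁻ θ in Ioc (-Real.pi) Real.pi,
      u θ * (ENNReal.ofReal ρ * kc ρ z θ)) ^ q := by
    rw [← lintegral_sub_right_eq_self (fun z => (∫⁻ θ in Ioc (-Real.pi) Real.pi,
      u θ * (ENNReal.ofReal ρ * kc ρ z θ)) ^ q) c]
    refine lintegral_congr fun z => ?_
    simp only [kc, sub_add_eq_sub_sub]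
  rw [h0]
  have hms : MeasurableSet {z : ℂ | 1 ≤ ‖z‖} := measurableSet_le measurable_const measurable_norm
  have hball : {z : ℂ | 1 ≤ ‖z‖}ᶜ = ball (0 : ℂ) 1 := by
    ext z
    simp
  have hA : ∫⁻ z in ball (0 : ℂ) 1, (∫⁻ θ in Ioc (-Real.pi) Real.pi,
      u θ * (ENNReal.ofReal ρ * kc ρ z θ)) ^ q ≤ C4 * N * C1 := by
    calc _ ≤ ∫⁻ z in ball (0 : ℂ) 1, (∫⁻ θ in Ioc (-Real.pi) Real.pi,
          u θ ^ q * kc ρ z θ ^ (3 / 2 : ℝ)) * C1 := lintegral_mono fun z => hC1 ρ hρ hρ2 u hu z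
      _ = (∫⁻ z in ball (0 : ℂ) 1, ∫⁻ θ in Ioc (-Real.pi) Real.pi,
          u θ ^ q * kc ρ z θ ^ (3 / 2 : ℝ)) * C1 := lintegral_mul_const' _ _ ENNReal.coe_ne_top
      _ ≤ _ := mul_le_mul_left (hC4 ρ hρ hρ2 u hu) _
  have hB : ∫⁻ z in {z : ℂ | 1 ≤ ‖z‖}, (∫⁻ θ in Ioc (-Real.pi) Real.pi,
      u θ * (ENNReal.ofReal ρ * kc ρ z θ)) ^ q ≤ C2 * (C3 * N) := by
    calc _ ≤ ∫⁻ z in {z : ℂ | 1 ≤ ‖z‖}, ENNReal.ofReal (‖z‖ ^ (-q)) * (C3 * N) :=
          setLIntegral_mono' hms fun z hz => hC3 ρ hρ hρ2 u hu z hz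
      _ = (∫⁻ z in {z : ℂ | 1 ≤ ‖z‖}, ENNReal.ofReal (‖z‖ ^ (-q))) * (C3 * N) :=
          lintegral_mul_const _ (measurable_norm.pow_const _).ennreal_ofReal
      _ ≤ _ := by
          refine mul_le_mul_left ?_ _
          rw [← lintegral_indicator hms]
          exact hC2
  rw [← lintegral_add_compl _ hms, hball]
  calc _ ≤ C2 * (C3 * N) + C4 * N * C1 := add_le_add hB hA
    _ = _ := by
      push_cast
      ring

end Pool.Agent.Y251.CP
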