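import Pool.Agent.Y251.CP.D2
import Pool.Agent.Y251.CP.D6
import Pool.Agent.Y251.CP.D7
set_option autoImplicit false

/-! # Holomorphic densities on discs: the extension operator of the paraboloid -/

namespace Pool.Agent.Y251.CP

open MeasureTheory Set Metric Complex Filter
open scoped ENNReal NNReal ComplexConjugate Topology

/-- integration in polar coordinates -/
theorem polar_le (h : ℂ → ℝ≥0∞) (hm : Measurable h) (c : ℂ) (r : ℝ) (hr1 : r ≤ 1)
    (N : ℝ≥0∞) (hN : ∀ s : ℝ, 0 < s → s < r →
      ∫⁻ θ in Ioc (-Real.pi) Real.pi, h (c + s * cexp (θ * I)) ≤ N) :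
    ∫⁻ z in ball c r, h z ≤ N := by
  set g : ℂ → ℝ≥0∞ := fun z => (ball c r).indicator h (c + z) with hg
  have hgm : Measurable g := (hm.indicator measurableSet_ball).comp (measurable_const_add c)
  have e1 : ∫⁻ z in ball c r, h z = ∫⁻ z, g z := by
    rw [← lintegral_indicator measurableSet_ball]
    exact (lintegral_add_left_eq_self ((ball c r).indicator h) c).symm
  have e2 : ∀ p : ℝ × ℝ, Complex.polarCoord.symm p = p.1 * cexp (p.2 * I) := by
    intro p
    rw [Complex.polarCoord_symm_apply, exp_mul_I]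
    push_cast
    ring
  have htar : polarCoord.target = Ioi (0 : ℝ) ×ˢ Ioo (-Real.pi) Real.pi := rfl
  rw [e1, ← Complex.lintegral_comp_polarCoord_symm, htar]
  have hmm : Measurable fun p : ℝ × ℝ => ENNReal.ofReal p.1 • g (p.1 * cexp (p.2 * I)) := by
    have : Continuous fun p : ℝ × ℝ => (p.1 * cexp (p.2 * I) : ℂ) := by fun_prop
    exact measurable_fst.ennreal_ofReal.mul (hgm.comp this.measurable)
  simp_rw [e2]
  rw [Measure.volume_eq_prod, ← Measure.prod_restrict, lintegral_prod _ hmm.aemeasurable]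
  have e3 : ∀ s ∈ Ioi (0 : ℝ), ∫⁻ θ in Ioo (-Real.pi) Real.pi,
      ENNReal.ofReal s • g (s * cexp (θ * I)) ≤ (Iio (1 : ℝ)).indicator (fun _ => N) s := by
    intro s hs
    have hs' : 0 < s := hs
    by_cases hsr : s < r
    · rw [indicator_of_mem (by exact lt_of_lt_of_le hsr hr1)]
      simp only [smul_eq_mul]
      rw [lintegral_const_mul' _ _ ENNReal.ofReal_ne_top]
      have h1 : ∫⁻ θ in Ioo (-Real.pi) Real.pi, g (s * cexp (θ * I)) ≤ N := by
        refine le_trans (lintegral_mono_set Ioo_subset_Ioc_self) (le_trans (le_of_eq ?_)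
          (hN s hs' hsr))
        refine lintegral_congr fun θ => ?_
        rw [hg]
        simp only
        rw [indicator_of_mem]
        rw [mem_ball, dist_eq_norm, add_sub_cancel_left, norm_mul, norm_exp_ofReal_mul_I,
          mul_one, norm_real, Real.norm_of_nonneg hs'.le]
        exact hsr
      calc ENNReal.ofReal s * ∫⁻ θ in Ioo (-Real.pi) Real.pi, g (s * cexp (θ * I))
          ≤ 1 * N := mul_le_mul' (ENNReal.ofReal_le_one.2 (by linarith)) h1
        _ = N := one_mul _
    · have h1 : ∀ θ : ℝ, g (s * cexp (θ * I)) = 0 := by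
        intro θ
        rw [hg]
        simp only
        rw [indicator_of_notMem]
        rw [mem_ball, dist_eq_norm, add_sub_cancel_left, norm_mul, norm_exp_ofReal_mul_I,
          mul_one, norm_real, Real.norm_of_nonneg hs'.le]
        exact hsr
      simp only [h1, smul_zero, lintegral_zero, zero_le]
  refine (setLIntegral_mono' measurableSet_Ioi e3).trans ?_
  rw [setLIntegral_indicator measurableSet_Iio, setLIntegral_const]
  have h5 : Iio (1 : ℝ) ∩ Ioi 0 = Ioo 0 1 := by
    ext x
    simp [and_comm]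
  rw [h5, Real.volume_Ioo]
  simp

theorem ind_meas {F : ℂ → ℂ} {s : Set ℂ} (hs : MeasurableSet s) (hF : ContinuousOn F s) :
    Measurable (s.indicator F) := by
  classical
  rw [← piecewise_eq_indicator]
  exact hF.measurable_piecewise continuousOn_const hs

/-- arc length in angular normalisation on a circle -/
noncomputable def cnu (c : ℂ) (ρ : ℝ) : Measure ℂ :=
  (volume.restrict (Ioc (-Real.pi) Real.pi)).map fun θ : ℝ => c + ρ * cexp (θ * I)

theorem disc_wd {F : ℂ → ℂ} {c : ℂ} {r ρ : ℝ} (hρ : 0 < ρ) (hρr : ρ < r)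
    (hF : DifferentiableOn ℂ F (ball c r)) :
    WD ((ball c ρ).indicator F) (cnu c ρ)
      (fun z => -(1 / 2) * ((closedBall c ρ).indicator F z * (z - c))) := by
  intro φ hφ _
  have hsub : closedBall c ρ ⊆ ball c r := closedBall_subset_ball hρr
  have hd1 : Differentiable ℝ φ := hφ.differentiable (by simp)
  have hdb : ∀ z, HasDbar φ (dbar φ z) z := fun z => ⟨fderiv ℝ φ z, (hd1 z).hasFDerivAt, rfl⟩
  have hcd : Continuous (dbar φ) := by
    have h1 : Continuous (fderiv ℝ φ) := hφ.continuous_fderiv (by simp)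
    unfold dbar
    have h2 : Continuous fun z => fderiv ℝ φ z 1 := h1.clm_apply continuous_const
    have h3 : Continuous fun z => fderiv ℝ φ z I := h1.clm_apply continuous_const
    exact (h2.add (continuous_const.mul h3)).div_const 2
  have h1 := green (fun z => F z * φ z) (fun z => F z * dbar φ z) c ρ hρ (fun z hz => by
    have h2 : DifferentiableAt ℂ F z := hF.differentiableAt (isOpen_ball.mem_nhds (hsub hz))
    exact ((hasDbar_of_holo h2).mul (hdb z)).congr (by ring))
    ((hF.continuousOn.mono hsub).mul hcd.continuousOn)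
  have e1 : ∫ z, (ball c ρ).indicator F z * dbar φ z = ∫ z in ball c ρ, F z * dbar φ z := by
    rw [← integral_indicator measurableSet_ball]
    refine integral_congr_ae (Eventually.of_forall fun z => ?_)
    simp only [indicator_mul_left]
  have hw : Continuous fun θ : ℝ => c + ρ * cexp (θ * I) := by fun_prop
  have hm : Measurable fun z => φ z * (-(1 / 2) * ((closedBall c ρ).indicator F z * (z - c))) := by
    refine hd1.continuous.measurable.mul (Measurable.const_mul (Measurable.mul ?_ ?_) _)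
    · exact ind_meas measurableSet_closedBall (hF.continuousOn.mono hsub)
    · exact measurable_id.sub_const c
  have e2 : ∫ z, φ z * (-(1 / 2) * ((closedBall c ρ).indicator F z * (z - c))) ∂(cnu c ρ) =
      -(1 / 2) * ∫ θ in Ioc (-Real.pi) Real.pi, F (c + ρ * cexp (θ * I)) *
        φ (c + ρ * cexp (θ * I)) * (ρ * cexp (θ * I)) := by
    unfold cnu
    rw [integral_map hw.measurable.aemeasurable hm.aestronglyMeasurable, ← integral_const_mul]
    refine integral_congr_ae (Eventually.of_forall fun θ => ?_)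
    simp only
    rw [indicator_of_mem, add_sub_cancel_left]
    · ring
    · rw [mem_closedBall, dist_eq_norm, add_sub_cancel_left, norm_mul, norm_exp_ofReal_mul_I,
        mul_one, norm_real, Real.norm_of_nonneg hρ.le]
  rw [e1, e2]
  rw [intervalIntegral.integral_of_le (by linarith [Real.pi_pos])] at h1
  rw [← h1]
  ring

theorem rad_le {c : ℂ} {r : ℝ} (hsub : ball c r ⊆ ball (0 : ℂ) (1 / 2)) : r ≤ 1 / 2 := by
  by_contra h
  push Not at h
  have h0 : 0 < r := by linarith
  have h1 : (1 : ℝ) / 2 < r := h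
  -- a point of norm at least `1 / 2`
  have h2 : ∃ w ∈ ball c r, 1 / 2 ≤ ‖w‖ := by
    by_cases hc : c = 0
    · refine ⟨((1 / 2 : ℝ) : ℂ), ?_, ?_⟩
      · rw [hc, mem_ball_zero_iff, norm_real, Real.norm_of_nonneg (by norm_num)]
        exact h1
      · rw [norm_real, Real.norm_of_nonneg (by norm_num)]
    · have hc' : 0 < ‖c‖ := norm_pos_iff.2 hc
      refine ⟨c + ((1 / 2 / ‖c‖ : ℝ) : ℂ) * c, ?_, ?_⟩
      · rw [mem_ball, dist_eq_norm, add_sub_cancel_left, norm_mul, norm_real,
          Real.norm_of_nonneg (by positivity), div_mul_cancel₀ _ hc'.ne']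
        exact h1
      · have : c + ((1 / 2 / ‖c‖ : ℝ) : ℂ) * c = ((1 + 1 / 2 / ‖c‖ : ℝ) : ℂ) * c := by
          push_cast
          ring
        rw [this, norm_mul, norm_real, Real.norm_of_nonneg (by positivity), add_mul,
          div_mul_cancel₀ _ hc'.ne']
        linarith
  obtain ⟨w, hw1, hw2⟩ := h2
  have := hsub hw1
  rw [mem_ball_zero_iff] at this
  linarith

theorem disc_hol0 {q : ℝ} (hq : 3 < q) : ∃ C : ℝ≥0, ∀ (c : ℂ) (r : ℝ),
    ball c r ⊆ ball (0 : ℂ) (1 / 2) → ∀ F : ℂ → ℂ, DifferentiableOn ℂ F (ball c r) →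
    ∀ ρ : ℝ, 0 < ρ → ρ < r → ∀ N : ℝ≥0∞, (∀ s : ℝ, 0 < s → s < r →
      ∫⁻ θ in Ioc (-Real.pi) Real.pi, ‖F (c + s * cexp (θ * I))‖ₑ ^ q ≤ N) →
    ∫⁻ ξ, ‖ext ((ball c ρ).indicator F) ξ‖ₑ ^ q ≤ C * N := by
  obtain ⟨C1, _, hC1⟩ := main1 hq
  obtain ⟨C2, hC2⟩ := disc_pot (q := q) (by linarith)
  refine ⟨C1 * (1 + C2), fun c r hsub F hF ρ hρ hρr N hN => ?_⟩
  have hq0 : 0 < q := by linarith
  have hr : r ≤ 1 / 2 := rad_le hsub
  have hsubρ : closedBall c ρ ⊆ ball c r := closedBall_subset_ball hρr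
  have hm : Measurable ((ball c ρ).indicator F) :=
    ind_meas measurableSet_ball (hF.continuousOn.mono (ball_subset_closedBall.trans hsubρ))
  have hmc : Measurable ((closedBall c ρ).indicator F) :=
    ind_meas measurableSet_closedBall (hF.continuousOn.mono hsubρ)
  have hs : ∀ z : ℂ, 1 / 2 ≤ ‖z‖ → (ball c ρ).indicator F z = 0 := by
    intro z hz
    rw [indicator_of_notMem]
    intro h
    have := hsub (hsubρ (ball_subset_closedBall h))
    rw [mem_ball_zero_iff] at this
    linarith
  refine (hC1 _ _ _ hm hs (disc_wd hρ hρr hF)).trans ?_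
  rw [ENNReal.coe_mul, mul_assoc]
  gcongr
  rw [ENNReal.coe_add, add_mul, ENNReal.coe_one, one_mul]
  gcongr
  · -- the `L^q` norm
    have e1 : ∀ z, ‖(ball c ρ).indicator F z‖ₑ ^ q =
        (ball c ρ).indicator (fun z => ‖(ball c ρ).indicator F z‖ₑ ^ q) z := by
      intro z
      by_cases hz : z ∈ ball c ρ
      · rw [indicator_of_mem hz, indicator_of_mem hz, indicator_of_mem hz]
      · rw [indicator_of_notMem hz, indicator_of_notMem hz, enorm_zero,
          ENNReal.zero_rpow_of_pos hq0]
    rw [lintegral_congr e1, lintegral_indicator measurableSet_ball]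
    refine polar_le _ (hm.enorm.pow_const q) c ρ (by linarith) N fun s hs1 hs2 => ?_
    refine le_trans (lintegral_mono fun θ => ?_) (hN s hs1 (hs2.trans hρr))
    refine ENNReal.rpow_le_rpow ?_ hq0.le
    by_cases hz : c + s * cexp (θ * I) ∈ ball c ρ
    · rw [indicator_of_mem hz]
    · rw [indicator_of_notMem hz, enorm_zero]
      exact zero_le
  · -- the potential
    have hw : Continuous fun θ : ℝ => c + ρ * cexp (θ * I) := by fun_prop
    have hfc : Continuous fun θ : ℝ => F (c + ρ * cexp (θ * I)) := by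
      refine hF.continuousOn.comp_continuous hw fun θ => ?_
      rw [mem_ball, dist_eq_norm, add_sub_cancel_left, norm_mul, norm_exp_ofReal_mul_I, mul_one,
        norm_real, Real.norm_of_nonneg hρ.le]
      exact hρr
    have e2 : ∀ z, pot (cnu c ρ) (fun z => -(1 / 2) * ((closedBall c ρ).indicator F z * (z - c))) z
        ≤ ∫⁻ θ in Ioc (-Real.pi) Real.pi, ‖F (c + ρ * cexp (θ * I))‖ₑ *
          (ENNReal.ofReal ρ * ‖z - (c + ρ * cexp (θ * I))‖ₑ⁻¹) := by
      intro z
      unfold pot cnu
      rw [lintegral_map _ hw.measurable]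
      · refine lintegral_mono fun θ => ?_
        beta_reduce
        rw [indicator_of_mem, add_sub_cancel_left]
        · rw [enorm_mul, enorm_mul]
          have h3 : ‖(-(1 / 2) : ℂ)‖ₑ ≤ 1 := by
            rw [← ofReal_norm]
            apply ENNReal.ofReal_le_one.2
            rw [norm_neg]
            norm_num
          have h4 : ‖(ρ : ℂ) * cexp (θ * I)‖ₑ = ENNReal.ofReal ρ := by
            rw [← ofReal_norm, norm_mul, norm_exp_ofReal_mul_I, mul_one, norm_real,
              Real.norm_of_nonneg hρ.le]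
          rw [h4]
          calc ‖(-(1 / 2) : ℂ)‖ₑ * (‖F (c + ρ * cexp (θ * I))‖ₑ * ENNReal.ofReal ρ) *
                ‖z - (c + ρ * cexp (θ * I))‖ₑ⁻¹
              ≤ 1 * (‖F (c + ρ * cexp (θ * I))‖ₑ * ENNReal.ofReal ρ) *
                ‖z - (c + ρ * cexp (θ * I))‖ₑ⁻¹ := by gcongr
            _ = _ := by ring
        · rw [mem_closedBall, dist_eq_norm, add_sub_cancel_left, norm_mul, norm_exp_ofReal_mul_I,
            mul_one, norm_real, Real.norm_of_nonneg hρ.le]
      · refine Measurable.mul ?_ ?_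
        · exact (Measurable.const_mul (hmc.mul (measurable_id.sub_const c)) _).enorm
        · exact (measurable_const.sub measurable_id).enorm.inv
    calc ∫⁻ z, pot (cnu c ρ) (fun z => -(1 / 2) * ((closedBall c ρ).indicator F z * (z - c))) z ^ q
        ≤ ∫⁻ z, (∫⁻ θ in Ioc (-Real.pi) Real.pi, ‖F (c + ρ * cexp (θ * I))‖ₑ *
          (ENNReal.ofReal ρ * ‖z - (c + ρ * cexp (θ * I))‖ₑ⁻¹)) ^ q :=
          lintegral_mono fun z => ENNReal.rpow_le_rpow (e2 z) hq0.le
      _ ≤ C2 * ∫⁻ θ in Ioc (-Real.pi) Real.pi, ‖F (c + ρ * cexp (θ * I))‖ₑ ^ q :=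
          hC2 ρ hρ (by linarith) c _ hfc.measurable.enorm
      _ ≤ _ := by
          gcongr
          exact hN ρ hρ hρr

end Pool.Agent.Y251.CP
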