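import Pool.Agent.Y251.CP.D8
import Pool.Agent.Y251.CP.D9
set_option autoImplicit false

/-! # Harmonic densities on discs: the extension operator of the paraboloid -/

namespace Pool.Agent.Y251.CP

open MeasureTheory Set Metric Complex Filter
open scoped ENNReal NNReal ComplexConjugate Topology

theorem enorm_conj (z : ℂ) : ‖conj z‖ₑ = ‖z‖ₑ := by
  rw [← ofReal_norm, RCLike.norm_conj, ofReal_norm]

theorem on_circ (c : ℂ) {s r : ℝ} (hs : 0 < s) (hsr : s < r) (θ : ℝ) :
    c + s * cexp (θ * I) ∈ ball c r := by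
  rw [mem_ball, dist_eq_norm, add_sub_cancel_left, norm_mul, norm_exp_ofReal_mul_I, mul_one,
    norm_real, Real.norm_of_nonneg hs.le]
  exact hsr

theorem ind_lq {q : ℝ} (hq : 0 < q) {F : ℂ → ℂ} {c : ℂ} {r : ℝ} (hr : r ≤ 1)
    (hm : Measurable ((ball c r).indicator F)) {N : ℝ≥0∞}
    (hN : ∀ s : ℝ, 0 < s → s < r →
      ∫⁻ θ in Ioc (-Real.pi) Real.pi, ‖F (c + s * cexp (θ * I))‖ₑ ^ q ≤ N) :
    ∫⁻ z, ‖(ball c r).indicator F z‖ₑ ^ q ≤ N := by
  have e1 : ∀ z, ‖(ball c r).indicator F z‖ₑ ^ q =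
      (ball c r).indicator (fun z => ‖(ball c r).indicator F z‖ₑ ^ q) z := by
    intro z
    by_cases hz : z ∈ ball c r
    · rw [indicator_of_mem hz, indicator_of_mem hz, indicator_of_mem hz]
    · rw [indicator_of_notMem hz, indicator_of_notMem hz, enorm_zero,
        ENNReal.zero_rpow_of_pos hq]
  rw [lintegral_congr e1, lintegral_indicator measurableSet_ball]
  refine polar_le _ (hm.enorm.pow_const q) c r hr N fun s hs1 hs2 => ?_
  refine le_trans (le_of_eq (lintegral_congr fun θ => ?_)) (hN s hs1 hs2)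
  rw [indicator_of_mem (on_circ c hs1 hs2 θ)]

theorem ind_supp {F : ℂ → ℂ} {c : ℂ} {r : ℝ} (hsub : ball c r ⊆ ball (0 : ℂ) (1 / 2)) (z : ℂ)
    (hz : 1 / 2 ≤ ‖z‖) : (ball c r).indicator F z = 0 := by
  rw [indicator_of_notMem]
  intro h
  have := hsub h
  rw [mem_ball_zero_iff] at this
  linarith

theorem disc_hol {q : ℝ} (hq : 3 < q) : ∃ C : ℝ≥0, ∀ (c : ℂ) (r : ℝ),
    ball c r ⊆ ball (0 : ℂ) (1 / 2) → ∀ F : ℂ → ℂ, DifferentiableOn ℂ F (ball c r) →
    ∀ N : ℝ≥0∞, (∀ s : ℝ, 0 < s → s < r →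
      ∫⁻ θ in Ioc (-Real.pi) Real.pi, ‖F (c + s * cexp (θ * I))‖ₑ ^ q ≤ N) →
    ∫⁻ ξ, ‖ext ((ball c r).indicator F) ξ‖ₑ ^ q ≤ C * N := by
  obtain ⟨C, hC⟩ := disc_hol0 hq
  refine ⟨C + 1, fun c r hsub F hF N hN => ?_⟩
  have hq0 : 0 < q := by linarith
  have hm : Measurable ((ball c r).indicator F) := ind_meas measurableSet_ball hF.continuousOn
  by_cases hr : r ≤ 0
  · have h0 : (ball c r).indicator F = fun _ => 0 := by
      rw [ball_eq_empty.2 hr]
      simp
    rw [h0]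
    simp [ext, ENNReal.zero_rpow_of_pos hq0]
  push Not at hr
  by_cases hNt : N = ∞
  · rw [hNt, ENNReal.mul_top (by simp)]
    exact le_top
  have hr1 : r ≤ 1 / 2 := rad_le hsub
  have hlq := ind_lq hq0 (by linarith) hm hN
  have hi : Integrable ((ball c r).indicator F) := by
    refine ⟨hm.aestronglyMeasurable, ?_⟩
    have hA := lp_mono one_pos (by linarith) (fun z => ‖(ball c r).indicator F z‖ₑ) hm.enorm
      (fun z hz => by rw [ind_supp hsub z hz, enorm_zero]) (q := q)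
    simp only [ENNReal.rpow_one] at hA
    exact hA.trans_lt (ENNReal.rpow_lt_top_of_nonneg (by positivity)
      (hlq.trans_lt (lt_top_iff_ne_top.2 hNt)).ne)
  set ρ : ℕ → ℝ := fun n => r - r * (1 / ((n : ℝ) + 2)) with hρ
  have hρ1 : ∀ n, 0 < ρ n := by
    intro n
    have h1 : 1 / ((n : ℝ) + 2) ≤ 1 / 2 :=
      one_div_le_one_div_of_le (by norm_num) (by linarith [Nat.cast_nonneg (α := ℝ) n])
    simp only [hρ]
    nlinarith
  have hρ2 : ∀ n, ρ n < r := by
    intro n
    have h1 : 0 < 1 / ((n : ℝ) + 2) := by positivity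
    simp only [hρ]
    nlinarith
  have hρl : Tendsto ρ atTop (𝓝 r) := by
    have h1 : Tendsto (fun n : ℕ => 1 / ((n : ℝ) + 2)) atTop (𝓝 0) := by
      have h2 : Tendsto (fun n : ℕ => (n : ℝ) + 2) atTop atTop :=
        tendsto_atTop_add_const_right _ _ tendsto_natCast_atTop_atTop
      have h4 := tendsto_inv_atTop_zero.comp h2
      refine h4.congr fun n => ?_
      rw [one_div]
      rfl
    have h3 := (tendsto_const_nhds (x := r)).sub (h1.const_mul r)
    rw [mul_zero, sub_zero] at h3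
    exact h3
  have hmn : ∀ n, Measurable ((ball c (ρ n)).indicator F) := fun n =>
    ind_meas measurableSet_ball (hF.continuousOn.mono (ball_subset_ball (hρ2 n).le))
  refine fatou_le volume (fun n ξ => ‖ext ((ball c (ρ n)).indicator F) ξ‖ₑ ^ q) _
    (fun n => (ext_meas _ (hmn n)).enorm.pow_const q) _ (fun n => ?_)
    (Eventually.of_forall fun ξ => ?_)
  · refine (hC c r hsub F hF (ρ n) (hρ1 n) (hρ2 n) N hN).trans ?_
    gcongr
    exact_mod_cast le_self_add
  · have h1 : Tendsto (fun n => ext ((ball c (ρ n)).indicator F) ξ) atTop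
        (𝓝 (ext ((ball c r).indicator F) ξ)) := by
      unfold ext
      have hce : Continuous fun z : ℂ =>
          cexp (-(((z.re * ξ.1.re + z.im * ξ.1.im + ‖z‖ ^ 2 * ξ.2 : ℝ) : ℂ) * I)) := by fun_prop
      have hno : ∀ z : ℂ,
          ‖cexp (-(((z.re * ξ.1.re + z.im * ξ.1.im + ‖z‖ ^ 2 * ξ.2 : ℝ) : ℂ) * I))‖ = 1 := by
        intro z
        rw [← neg_mul, ← ofReal_neg, norm_exp_ofReal_mul_I]
      refine tendsto_integral_of_dominated_convergence (fun z => ‖(ball c r).indicator F z‖)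
        (fun n => (hce.measurable.mul (hmn n)).aestronglyMeasurable) hi.norm
        (fun n => Eventually.of_forall fun z => ?_) (Eventually.of_forall fun z => ?_)
      · rw [norm_mul, hno, one_mul]
        by_cases hz : z ∈ ball c (ρ n)
        · rw [indicator_of_mem hz, indicator_of_mem (ball_subset_ball (hρ2 n).le hz)]
        · rw [indicator_of_notMem hz, norm_zero]
          exact norm_nonneg _
      · refine Tendsto.const_mul _ ?_
        by_cases hz : z ∈ ball c r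
        · have h2 : ∀ᶠ n in atTop, dist z c < ρ n := hρl.eventually_const_lt (mem_ball.1 hz)
          refine tendsto_const_nhds.congr' ?_
          filter_upwards [h2] with n hn
          rw [indicator_of_mem hz, indicator_of_mem (mem_ball.2 hn)]
        · refine tendsto_const_nhds.congr fun n => ?_
          rw [indicator_of_notMem hz, indicator_of_notMem]
          exact fun h => hz (ball_subset_ball (hρ2 n).le h)
    exact (ENNReal.continuous_rpow_const.tendsto _).comp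
      ((continuous_enorm.tendsto _).comp h1)

theorem ext_conj (f : ℂ → ℂ) (ξ : ℂ × ℝ) : ext (fun z => conj (f z)) ξ = conj (ext f (-ξ)) := by
  unfold ext
  rw [← integral_conj]
  refine integral_congr_ae (Eventually.of_forall fun z => ?_)
  simp only [map_mul, ← exp_conj, map_neg, conj_ofReal, conj_I, Prod.fst_neg, Prod.snd_neg,
    neg_re, neg_im]
  congr 2
  push_cast
  ring

theorem three_rpow (a b c : ℝ≥0∞) {p : ℝ} (hp : 0 ≤ p) :
    (a + b + c) ^ p ≤ ENNReal.ofReal (3 ^ p) * (a ^ p + b ^ p + c ^ p) := by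
  have h1 : a + b + c ≤ 3 * max (max a b) c := by
    calc a + b + c ≤ max (max a b) c + max (max a b) c + max (max a b) c := by
          gcongr
          · exact (le_max_left _ _).trans (le_max_left _ _)
          · exact (le_max_right _ _).trans (le_max_left _ _)
          · exact le_max_right _ _
      _ = _ := by ring
  refine (ENNReal.rpow_le_rpow h1 hp).trans ?_
  rw [ENNReal.mul_rpow_of_nonneg _ _ hp, ← ENNReal.ofReal_rpow_of_nonneg (by norm_num) hp,
    ENNReal.ofReal_ofNat]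
  refine mul_le_mul' le_rfl ?_
  rcases max_choice (max a b) c with h | h
  · rw [h]
    rcases max_choice a b with h' | h'
    · rw [h', add_assoc]
      exact le_self_add
    · rw [h', add_assoc, add_comm, add_assoc]
      exact le_self_add
  · rw [h]
    exact le_add_self

theorem lint4 {f : ℝ → ℂ} (hf : Continuous f) :
    ∫⁻ θ in Ioc (-Real.pi) Real.pi, ‖f θ‖ₑ ^ (4 : ℝ) =
      ENNReal.ofReal (∫ θ in Ioc (-Real.pi) Real.pi, ‖f θ‖ ^ 4) := by
  have h1 : IntegrableOn (fun θ => ‖f θ‖ ^ 4) (Ioc (-Real.pi) Real.pi) :=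
    (hf.norm.pow 4).integrableOn_Ioc
  rw [ofReal_integral_eq_lintegral_ofReal h1 (Eventually.of_forall fun θ => by positivity)]
  refine lintegral_congr fun θ => ?_
  rw [ENNReal.ofReal_pow (norm_nonneg _), ofReal_norm]
  norm_cast

/-- Hölder's inequality on the circle -/
theorem circ_hold {q : ℝ} (hq : 0 < q) (hq4 : q < 4) {f : ℝ → ℂ} (hf : Continuous f) {N : ℝ≥0∞}
    (hN : ∫⁻ θ in Ioc (-Real.pi) Real.pi, ‖f θ‖ₑ ^ (4 : ℝ) ≤ N) :
    ∫⁻ θ in Ioc (-Real.pi) Real.pi, ‖f θ‖ₑ ^ q ≤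
      N ^ (q / 4) * ENNReal.ofReal (2 * Real.pi) ^ (1 - q / 4) := by
  have h := jensen (volume.restrict (Ioc (-Real.pi) Real.pi)) (q := 4 / q)
    ((one_lt_div hq).2 hq4) (u := fun θ => ‖f θ‖ₑ ^ q) (k := fun _ => 1)
    (hf.measurable.enorm.pow_const q).aemeasurable aemeasurable_const
  simp only [mul_one, lintegral_const, one_mul] at h
  rw [pi_univ] at h
  have e1 : ∀ θ, (‖f θ‖ₑ ^ q) ^ (4 / q) = ‖f θ‖ₑ ^ (4 : ℝ) := by
    intro θ
    rw [← ENNReal.rpow_mul, mul_div_cancel₀ _ hq.ne']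
  simp_rw [e1] at h
  have h2 := ENNReal.rpow_le_rpow h (by positivity : 0 ≤ q / 4)
  rw [← ENNReal.rpow_mul, show 4 / q * (q / 4) = 1 by field_simp, ENNReal.rpow_one,
    ENNReal.mul_rpow_of_nonneg _ _ (by positivity), ← ENNReal.rpow_mul,
    show (4 / q - 1) * (q / 4) = 1 - q / 4 by field_simp] at h2
  refine h2.trans ?_
  gcongr

theorem neg_inv (G : ℂ × ℝ → ℝ≥0∞) (hG : Measurable G) : ∫⁻ ξ, G (-ξ) = ∫⁻ ξ, G ξ := by
  have h1 : (volume : Measure (ℂ × ℝ)).IsAddHaarMeasure := by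
    rw [Measure.volume_eq_prod]
    infer_instance
  have h2 : (volume : Measure (ℂ × ℝ)).IsNegInvariant := inferInstance
  exact (Measure.measurePreserving_neg (volume : Measure (ℂ × ℝ))).lintegral_comp hG

/-- **The estimate for harmonic densities on discs**, `3 < q < 4` -/
theorem harm0 {q : ℝ} (hq : 3 < q) (hq4 : q < 4) : ∃ C : ℝ≥0, ∀ (c : ℂ) (r : ℝ),
    ball c r ⊆ ball (0 : ℂ) (1 / 2) → ∀ F G : ℂ → ℂ, DifferentiableOn ℂ F (ball c r) →
    DifferentiableOn ℂ G (ball c r) → ∀ N : ℝ, (∀ s : ℝ, 0 < s → s < r →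
      ∫ θ in Ioc (-Real.pi) Real.pi,
        ‖F (c + s * cexp (θ * I)) + conj (G (c + s * cexp (θ * I)))‖ ^ 4 ≤ N) →
    ∫⁻ ξ, ‖ext ((ball c r).indicator fun z => F z + conj (G z)) ξ‖ₑ ^ q ≤
      C * ENNReal.ofReal N ^ (q / 4) := by
  obtain ⟨C, hC⟩ := disc_hol hq
  have hq0 : 0 < q := by linarith
  have hcst : ENNReal.ofReal (3 ^ q) * (3 * (C * (768 ^ (q / 4) *
      ENNReal.ofReal (2 * Real.pi) ^ (1 - q / 4)))) ≠ ∞ := by
    refine ENNReal.mul_ne_top ENNReal.ofReal_ne_top (ENNReal.mul_ne_top (by norm_num)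
      (ENNReal.mul_ne_top ENNReal.coe_ne_top (ENNReal.mul_ne_top ?_ ?_)))
    · exact (ENNReal.rpow_lt_top_of_nonneg (by positivity) (by norm_num)).ne
    · exact (ENNReal.rpow_lt_top_of_nonneg (by linarith) ENNReal.ofReal_ne_top).ne
  refine ⟨(ENNReal.ofReal (3 ^ q) * (3 * (C * (768 ^ (q / 4) *
      ENNReal.ofReal (2 * Real.pi) ^ (1 - q / 4))))).toNNReal, fun c r hsub F G hF hG N hN => ?_⟩
  rw [ENNReal.coe_toNNReal hcst]
  by_cases hr : r ≤ 0
  · have h0 : ((ball c r).indicator fun z => F z + conj (G z)) = fun _ => 0 := by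
      rw [ball_eq_empty.2 hr]
      simp
    rw [h0]
    simp [ext, ENNReal.zero_rpow_of_pos hq0]
  push Not at hr
  have hr1 : r ≤ 1 / 2 := rad_le hsub
  -- one holomorphic function
  have key : ∀ f : ℂ → ℂ, DifferentiableOn ℂ f (ball c r) → (∀ s : ℝ, 0 < s → s < r →
      ∫ θ in Ioc (-Real.pi) Real.pi, ‖f (c + s * cexp (θ * I))‖ ^ 4 ≤ 768 * N) →
      ∫⁻ ξ, ‖ext ((ball c r).indicator f) ξ‖ₑ ^ q ≤ C * (768 ^ (q / 4) *
        ENNReal.ofReal (2 * Real.pi) ^ (1 - q / 4)) * ENNReal.ofReal N ^ (q / 4) := by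
    intro f hf hfN
    refine (hC c r hsub f hf ((768 * ENNReal.ofReal N) ^ (q / 4) *
      ENNReal.ofReal (2 * Real.pi) ^ (1 - q / 4)) fun s hs1 hs2 => ?_).trans (le_of_eq ?_)
    · have hfc := circ_cont hs1 hs2 hf.continuousOn
      refine circ_hold hq0 hq4 hfc ?_
      rw [lint4 hfc, ← ENNReal.ofReal_ofNat, ← ENNReal.ofReal_mul (by norm_num)]
      exact ENNReal.ofReal_le_ofReal (hfN s hs1 hs2)
    · rw [ENNReal.mul_rpow_of_nonneg _ _ (by positivity)]
      ring
  have hFd : DifferentiableOn ℂ (fun z => F z - F c) (ball c r) := hF.sub_const _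
  have hGd : DifferentiableOn ℂ (fun z => G z - G c) (ball c r) := hG.sub_const _
  have k1 := key _ hFd fun s hs1 hs2 => ((riesz_circ hs1 hs2 hF hG).1).trans
    (mul_le_mul_of_nonneg_left (hN s hs1 hs2) (by norm_num))
  have k2 := key _ hGd fun s hs1 hs2 => ((riesz_circ hs1 hs2 hF hG).2.1).trans
    (mul_le_mul_of_nonneg_left (hN s hs1 hs2) (by norm_num))
  have k3 := key (fun _ => F c + conj (G c)) (differentiableOn_const _) fun s hs1 hs2 => by
    have h1 := ((riesz_circ hs1 hs2 hF hG).2.2).trans (hN s hs1 hs2)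
    have h2 : ∫ _θ in Ioc (-Real.pi) Real.pi, ‖F c + conj (G c)‖ ^ 4 =
        2 * Real.pi * ‖F c + conj (G c)‖ ^ 4 := by
      rw [setIntegral_const, Real.volume_real_Ioc_of_le (by linarith [Real.pi_pos]), smul_eq_mul]
      ring
    rw [h2]
    have h3 : 0 ≤ N := le_trans (by positivity) h1
    linarith
  set f1 : ℂ → ℂ := (ball c r).indicator fun z => F z - F c with hf1
  set f2 : ℂ → ℂ := (ball c r).indicator fun z => G z - G c with hf2
  set f3 : ℂ → ℂ := (ball c r).indicator fun _ => F c + conj (G c) with hf3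
  have m1 : Measurable f1 := ind_meas measurableSet_ball hFd.continuousOn
  have m2 : Measurable f2 := ind_meas measurableSet_ball hGd.continuousOn
  have m3 : Measurable f3 := measurable_const.indicator measurableSet_ball
  have int : ∀ f : ℂ → ℂ, DifferentiableOn ℂ f (ball c r) → (∀ s : ℝ, 0 < s → s < r →
      ∫ θ in Ioc (-Real.pi) Real.pi, ‖f (c + s * cexp (θ * I))‖ ^ 4 ≤ 768 * N) →
      Integrable ((ball c r).indicator f) := by
    intro f hf hfN
    have hm : Measurable ((ball c r).indicator f) := ind_meas measurableSet_ball hf.continuousOn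
    refine ⟨hm.aestronglyMeasurable, ?_⟩
    have hlq := ind_lq (N := ENNReal.ofReal (768 * N)) four_pos (by linarith) hm
      fun s hs1 hs2 => by
        rw [lint4 (circ_cont hs1 hs2 hf.continuousOn)]
        exact ENNReal.ofReal_le_ofReal (hfN s hs1 hs2)
    have hA := lp_mono one_pos (by norm_num) (fun z => ‖(ball c r).indicator f z‖ₑ) hm.enorm
      (fun z hz => by rw [ind_supp hsub z hz, enorm_zero]) (q := 4)
    simp only [ENNReal.rpow_one] at hA
    exact hA.trans_lt (ENNReal.rpow_lt_top_of_nonneg (by positivity)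
      (hlq.trans_lt ENNReal.ofReal_lt_top).ne)
  have i1 : Integrable f1 := int _ hFd fun s hs1 hs2 => ((riesz_circ hs1 hs2 hF hG).1).trans
    (mul_le_mul_of_nonneg_left (hN s hs1 hs2) (by norm_num))
  have i2 : Integrable f2 := int _ hGd fun s hs1 hs2 => ((riesz_circ hs1 hs2 hF hG).2.1).trans
    (mul_le_mul_of_nonneg_left (hN s hs1 hs2) (by norm_num))
  have i3 : Integrable f3 := by
    rw [hf3, integrable_indicator_iff measurableSet_ball]
    exact integrableOn_const (measure_ball_lt_top).ne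
  have hdec : ∀ ξ, ext ((ball c r).indicator fun z => F z + conj (G z)) ξ =
      ext f1 ξ + conj (ext f2 (-ξ)) + ext f3 ξ := by
    intro ξ
    rw [← ext_conj]
    have hce : Continuous fun z : ℂ =>
        cexp (-(((z.re * ξ.1.re + z.im * ξ.1.im + ‖z‖ ^ 2 * ξ.2 : ℝ) : ℂ) * I)) := by fun_prop
    have hno : ∀ z : ℂ,
        ‖cexp (-(((z.re * ξ.1.re + z.im * ξ.1.im + ‖z‖ ^ 2 * ξ.2 : ℝ) : ℂ) * I))‖ ≤ 1 := by
      intro z
      rw [← neg_mul, ← ofReal_neg, norm_exp_ofReal_mul_I]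
    have j1 : Integrable fun z : ℂ =>
        cexp (-(((z.re * ξ.1.re + z.im * ξ.1.im + ‖z‖ ^ 2 * ξ.2 : ℝ) : ℂ) * I)) * f1 z :=
      i1.bdd_mul hce.aestronglyMeasurable (Eventually.of_forall hno)
    have i2c : Integrable fun z => conj (f2 z) := by
      refine (integrable_norm_iff (continuous_conj.measurable.comp m2).aestronglyMeasurable).1 ?_
      simp only [Function.comp_apply, RCLike.norm_conj]
      exact i2.norm
    have j2 : Integrable fun z : ℂ =>
        cexp (-(((z.re * ξ.1.re + z.im * ξ.1.im + ‖z‖ ^ 2 * ξ.2 : ℝ) : ℂ) * I)) * conj (f2 z) :=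
      i2c.bdd_mul hce.aestronglyMeasurable (Eventually.of_forall hno)
    have j3 : Integrable fun z : ℂ =>
        cexp (-(((z.re * ξ.1.re + z.im * ξ.1.im + ‖z‖ ^ 2 * ξ.2 : ℝ) : ℂ) * I)) * f3 z :=
      i3.bdd_mul hce.aestronglyMeasurable (Eventually.of_forall hno)
    unfold ext
    have i12 := integral_add j1 j2
    have i123 := integral_add (j1.add j2) j3
    simp only [Pi.add_apply] at i12 i123
    rw [← i12, ← i123]
    refine integral_congr_ae (Eventually.of_forall fun z => ?_)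
    simp only [hf1, hf2, hf3]
    by_cases hz : z ∈ ball c r
    · simp only [indicator_of_mem hz, map_sub]
      ring
    · simp only [indicator_of_notMem hz, map_zero]
      ring
  have hneg : ∫⁻ ξ, ‖ext f2 (-ξ)‖ₑ ^ q = ∫⁻ ξ, ‖ext f2 ξ‖ₑ ^ q :=
    neg_inv _ ((ext_meas f2 m2).enorm.pow_const q)
  calc ∫⁻ ξ, ‖ext ((ball c r).indicator fun z => F z + conj (G z)) ξ‖ₑ ^ q
      ≤ ∫⁻ ξ, ENNReal.ofReal (3 ^ q) * (‖ext f1 ξ‖ₑ ^ q + ‖ext f2 (-ξ)‖ₑ ^ q +
          ‖ext f3 ξ‖ₑ ^ q) := by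
        refine lintegral_mono fun ξ => ?_
        rw [hdec ξ]
        have h4 : ‖ext f1 ξ + conj (ext f2 (-ξ)) + ext f3 ξ‖ₑ ≤
            ‖ext f1 ξ‖ₑ + ‖ext f2 (-ξ)‖ₑ + ‖ext f3 ξ‖ₑ := by
          refine (enorm_add_le _ _).trans (add_le_add ((enorm_add_le _ _).trans ?_) le_rfl)
          rw [enorm_conj]
        exact (ENNReal.rpow_le_rpow h4 hq0.le).trans (three_rpow _ _ _ hq0.le)
    _ = ENNReal.ofReal (3 ^ q) * ((∫⁻ ξ, ‖ext f1 ξ‖ₑ ^ q) + (∫⁻ ξ, ‖ext f2 ξ‖ₑ ^ q) +
          ∫⁻ ξ, ‖ext f3 ξ‖ₑ ^ q) := by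
        rw [lintegral_const_mul' _ _ ENNReal.ofReal_ne_top,
          lintegral_add_right _ ((ext_meas f3 m3).enorm.pow_const q),
          lintegral_add_left ((ext_meas f1 m1).enorm.pow_const q), hneg]
    _ ≤ ENNReal.ofReal (3 ^ q) * (C * (768 ^ (q / 4) *
        ENNReal.ofReal (2 * Real.pi) ^ (1 - q / 4)) * ENNReal.ofReal N ^ (q / 4) +
        C * (768 ^ (q / 4) *
        ENNReal.ofReal (2 * Real.pi) ^ (1 - q / 4)) * ENNReal.ofReal N ^ (q / 4) +
        C * (768 ^ (q / 4) *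
        ENNReal.ofReal (2 * Real.pi) ^ (1 - q / 4)) * ENNReal.ofReal N ^ (q / 4)) := by
        gcongr
    _ = _ := by ring

end Pool.Agent.Y251.CP
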