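import Pool.Agent.Y251.CP.D10
set_option autoImplicit false

/-! # Harmonic densities on discs, all exponents -/

namespace Pool.Agent.Y251.CP

open MeasureTheory Set Metric Complex Filter
open scoped ENNReal NNReal ComplexConjugate Topology

/-- the first moment -/
theorem circ_one {f : ℝ → ℂ} (hf : Continuous f) {M : ℝ} (hM : 0 ≤ M)
    (hN : ∫ θ in Ioc (-Real.pi) Real.pi, ‖f θ‖ ^ 4 ≤ 2 * Real.pi * M ^ 4) :
    ∫⁻ θ in Ioc (-Real.pi) Real.pi, ‖f θ‖ₑ ^ (1 : ℝ) ≤ ENNReal.ofReal (2 * Real.pi * M) := by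
  have hpi := Real.pi_pos
  have h1 := circ_hold one_pos (by norm_num) hf (N := ENNReal.ofReal (2 * Real.pi * M ^ 4)) (by
    rw [lint4 hf]
    exact ENNReal.ofReal_le_ofReal hN)
  refine h1.trans (le_of_eq ?_)
  rw [ENNReal.ofReal_rpow_of_nonneg (by positivity) (by norm_num),
    ENNReal.ofReal_rpow_of_nonneg (by positivity) (by norm_num),
    ← ENNReal.ofReal_mul (by positivity)]
  congr 1
  rw [Real.mul_rpow (by positivity) (by positivity), ← Real.rpow_natCast M 4,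
    ← Real.rpow_mul hM, mul_right_comm, ← Real.rpow_add (by positivity)]
  norm_num

theorem harm_q {q : ℝ} (hq : 3 < q) : ∃ C : ℝ, 0 < C ∧ ∀ (c : ℂ) (r : ℝ),
    ball c r ⊆ ball (0 : ℂ) (1 / 2) → ∀ F G : ℂ → ℂ, DifferentiableOn ℂ F (ball c r) →
    DifferentiableOn ℂ G (ball c r) → ∀ M : ℝ, 0 ≤ M → (∀ s : ℝ, 0 < s → s < r →
      ∫ θ in Ioc (-Real.pi) Real.pi,
        ‖F (c + s * cexp (θ * I)) + conj (G (c + s * cexp (θ * I)))‖ ^ 4 ≤ 2 * Real.pi * M ^ 4) →
    Measurable ((ball c r).indicator fun z => F z + conj (G z)) ∧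
    ∫⁻ z, ‖(ball c r).indicator (fun z => F z + conj (G z)) z‖ₑ ≤ ENNReal.ofReal (C * M) ∧
    ∫⁻ ξ, ‖ext ((ball c r).indicator fun z => F z + conj (G z)) ξ‖ₑ ^ q ≤
      ENNReal.ofReal (C * M ^ q) := by
  have hpi := Real.pi_pos
  -- an exponent below four
  obtain ⟨p, hp3, hp4, hpq⟩ : ∃ p : ℝ, 3 < p ∧ p < 4 ∧ p ≤ q := by
    refine ⟨min q (7 / 2), lt_min hq (by norm_num), ?_, min_le_left _ _⟩
    exact (min_le_right _ _).trans_lt (by norm_num)
  obtain ⟨C, hC⟩ := harm0 hp3 hp4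
  have hq0 : 0 < q := by linarith
  have hp0 : 0 < p := by linarith
  set K : ℝ := (2 * Real.pi) ^ (q - p) * (C * (2 * Real.pi) ^ (p / 4)) with hK
  have hK0 : 0 ≤ K := by positivity
  refine ⟨2 * Real.pi + K, by positivity, ?_⟩
  intro c r hsub F G hF hG M hM hN
  have hGc : ContinuousOn (fun z => F z + conj (G z)) (ball c r) :=
    hF.continuousOn.add (continuous_conj.comp_continuousOn hG.continuousOn)
  have hm : Measurable ((ball c r).indicator fun z => F z + conj (G z)) :=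
    ind_meas measurableSet_ball hGc
  set h : ℂ → ℂ := (ball c r).indicator fun z => F z + conj (G z) with hh
  have h1 : ∫⁻ z, ‖h z‖ₑ ≤ ENNReal.ofReal (2 * Real.pi * M) := by
    by_cases hr : r ≤ 0
    · have h0 : h = fun _ => 0 := by
        rw [hh, ball_eq_empty.2 hr]
        simp
      rw [h0]
      simp
    push Not at hr
    have h2 := ind_lq one_pos (by linarith [rad_le hsub]) hm fun s hs1 hs2 =>
      circ_one (circ_cont hs1 hs2 hGc) hM (hN s hs1 hs2)
    simpa only [ENNReal.rpow_one] using h2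
  have h2 : ∫⁻ ξ, ‖ext h ξ‖ₑ ^ p ≤ ENNReal.ofReal (C * (2 * Real.pi) ^ (p / 4) * M ^ p) := by
    refine (hC c r hsub F G hF hG _ hN).trans (le_of_eq ?_)
    rw [ENNReal.ofReal_rpow_of_nonneg (by positivity) (by positivity), ← ENNReal.ofReal_coe_nnreal,
      ← ENNReal.ofReal_mul (by positivity)]
    congr 1
    rw [Real.mul_rpow (by positivity) (by positivity), ← Real.rpow_natCast M 4,
      ← Real.rpow_mul hM, mul_assoc]
    congr 3
    push_cast
    ring
  refine ⟨hm, h1.trans (ENNReal.ofReal_le_ofReal ?_), ?_⟩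
  · have : 0 ≤ K * M := by positivity
    linarith
  have h3 : ∀ ξ, ‖ext h ξ‖ₑ ^ q ≤ ENNReal.ofReal (2 * Real.pi * M) ^ (q - p) * ‖ext h ξ‖ₑ ^ p := by
    intro ξ
    have e1 : ‖ext h ξ‖ₑ ^ q = ‖ext h ξ‖ₑ ^ (q - p) * ‖ext h ξ‖ₑ ^ p := by
      rw [← ENNReal.rpow_add_of_nonneg _ _ (by linarith) hp0.le]
      congr 1
      ring
    rw [e1]
    exact mul_le_mul_left (ENNReal.rpow_le_rpow ((ext_sup h ξ).trans h1) (by linarith)) _
  calc ∫⁻ ξ, ‖ext h ξ‖ₑ ^ q ≤ ∫⁻ ξ, ENNReal.ofReal (2 * Real.pi * M) ^ (q - p) *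
        ‖ext h ξ‖ₑ ^ p := lintegral_mono h3
    _ = ENNReal.ofReal (2 * Real.pi * M) ^ (q - p) * ∫⁻ ξ, ‖ext h ξ‖ₑ ^ p :=
        lintegral_const_mul _ ((ext_meas h hm).enorm.pow_const p)
    _ ≤ ENNReal.ofReal (2 * Real.pi * M) ^ (q - p) *
        ENNReal.ofReal (C * (2 * Real.pi) ^ (p / 4) * M ^ p) := by gcongr
    _ = ENNReal.ofReal (K * M ^ q) := by
        rw [ENNReal.ofReal_rpow_of_nonneg (by positivity) (by linarith),
          ← ENNReal.ofReal_mul (by positivity)]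
        congr 1
        have e2 : M ^ q = M ^ (q - p) * M ^ p := by
          rw [← Real.rpow_add_of_nonneg hM (by linarith) hp0.le]
          congr 1
          ring
        rw [Real.mul_rpow (by positivity) hM, hK, e2]
        ring
    _ ≤ _ := by
        apply ENNReal.ofReal_le_ofReal
        have : 0 ≤ M ^ q := Real.rpow_nonneg hM q
        nlinarith

end Pool.Agent.Y251.CP
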