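import Pool.Agent.Y251.CP.D1
set_option autoImplicit false

/-! # Green's formula on discs in terms of the conjugate derivative -/

namespace Pool.Agent.Y251.CP

open MeasureTheory Set Metric Complex Filter
open scoped ENNReal ComplexConjugate Topology

theorem dbar_rot (L : ℂ →L[ℝ] ℂ) (w : ℂ) :
    L w + I * L (I * w) = (L 1 + I * L I) * conj w := by
  have h1 : ∀ x y : ℝ, L (x + y * I) = x * L 1 + y * L I := by
    intro x y
    have : (x + y * I : ℂ) = x • (1 : ℂ) + y • I := by simp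
    rw [this, map_add, map_smul, map_smul]
    simp
  have h2 : w = (w.re : ℂ) + (w.im : ℝ) * I := (re_add_im w).symm
  have h3 : I * w = ((-w.im : ℝ) : ℂ) + (w.re : ℝ) * I := by
    rw [h2]
    push_cast
    simp only [add_re, ofReal_re, mul_re, I_re, mul_zero, ofReal_im, I_im, mul_one, sub_self,
      add_zero, add_im, mul_im, zero_add]
    linear_combination (w.im : ℂ) * I_mul_I
  have h4 : conj w = (w.re : ℂ) - (w.im : ℝ) * I := by
    apply Complex.ext <;> simp
  rw [h3, h1, h4]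
  have h5 : L w = w.re * L 1 + w.im * L I := by
    conv_lhs => rw [h2]
    exact h1 _ _
  rw [h5]
  push_cast
  linear_combination ((w.im : ℂ) * L I) * I_mul_I

/-- Green's formula in polar coordinates -/
theorem green_polar (φ d : ℂ → ℂ) (c : ℂ) (R : ℝ) (hR : 0 < R)
    (h : ∀ z ∈ closedBall c R, HasDbar φ (d z) z) (hd : ContinuousOn d (closedBall c R)) :
    ∫ ρ in (0 : ℝ)..R, ∫ θ in (-Real.pi)..Real.pi, 2 * (ρ : ℂ) * d (c + ρ * cexp (θ * I)) =
      ∫ θ in (-Real.pi)..Real.pi, φ (c + R * cexp (θ * I)) * (R * cexp (θ * I)) := by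
  choose! L hL hLd using h
  have hmem : ∀ x : ℝ × ℝ, x ∈ uIcc (0 : ℝ) R ×ˢ uIcc (-Real.pi) Real.pi →
      c + x.1 * cexp (x.2 * I) ∈ closedBall c R := by
    rintro x ⟨hx, -⟩
    rw [uIcc_of_le hR.le] at hx
    rw [mem_closedBall, dist_eq_norm, add_sub_cancel_left, norm_mul, norm_exp_ofReal_mul_I,
      mul_one, norm_real, Real.norm_eq_abs, abs_of_nonneg hx.1]
    exact hx.2
  have hcont : Continuous fun x : ℝ × ℝ => c + x.1 * cexp (x.2 * I) := by fun_prop
  have hφc : ContinuousOn φ (closedBall c R) :=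
    fun z hz => (hL z hz).continuousAt.continuousWithinAt
  have hφ2 : ContinuousOn (fun x : ℝ × ℝ => φ (c + x.1 * cexp (x.2 * I)))
      (uIcc (0 : ℝ) R ×ˢ uIcc (-Real.pi) Real.pi) :=
    hφc.comp hcont.continuousOn hmem
  have hd2 : ContinuousOn (fun x : ℝ × ℝ => d (c + x.1 * cexp (x.2 * I)))
      (uIcc (0 : ℝ) R ×ˢ uIcc (-Real.pi) Real.pi) :=
    hd.comp hcont.continuousOn hmem
  -- derivative of the polar map
  set P' : ℝ × ℝ → (ℝ × ℝ →L[ℝ] ℂ) := fun x =>
    (ContinuousLinearMap.fst ℝ ℝ ℝ).smulRight (cexp (x.2 * I)) +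
      (ContinuousLinearMap.snd ℝ ℝ ℝ).smulRight ((x.1 : ℂ) * cexp (x.2 * I) * I) with hP'
  set e' : ℝ × ℝ → (ℝ × ℝ →L[ℝ] ℂ) := fun x =>
    (ContinuousLinearMap.snd ℝ ℝ ℝ).smulRight (cexp (x.2 * I) * I) with he'
  have he : ∀ x : ℝ × ℝ, HasFDerivAt (fun y : ℝ × ℝ => cexp (y.2 * I)) (e' x) x := by
    intro x
    have h1 : HasDerivAt (fun s : ℝ => cexp (s * I)) (cexp (x.2 * I) * I) x.2 := by
      have := (((hasDerivAt_id (x.2 : ℂ)).mul_const I).cexp).comp_ofReal
      simpa using this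
    have h2 := h1.hasFDerivAt.comp x (hasFDerivAt_snd (𝕜 := ℝ) (p := x))
    refine h2.congr_fderiv ?_
    ext <;> simp [he']
  have hP : ∀ x : ℝ × ℝ, HasFDerivAt (fun y : ℝ × ℝ => c + y.1 * cexp (y.2 * I)) (P' x) x := by
    intro x
    have h1 : HasFDerivAt (fun y : ℝ × ℝ => (y.1 : ℂ))
        (ofRealCLM.comp (ContinuousLinearMap.fst ℝ ℝ ℝ)) x :=
      (ofRealCLM.comp (ContinuousLinearMap.fst ℝ ℝ ℝ)).hasFDerivAt
    have h2 := (h1.mul (he x)).const_add c
    refine h2.congr_fderiv ?_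
    ext <;> (simp [hP', he']; try ring)
  set f : ℝ × ℝ → ℂ := fun x => φ (c + x.1 * cexp (x.2 * I)) * (x.1 * cexp (x.2 * I)) with hf
  set g : ℝ × ℝ → ℂ := fun x => φ (c + x.1 * cexp (x.2 * I)) * (I * cexp (x.2 * I)) with hg
  set Lp : ℝ × ℝ → (ℂ →L[ℝ] ℂ) := fun x => L (c + x.1 * cexp (x.2 * I)) with hLp
  set f' : ℝ × ℝ → (ℝ × ℝ →L[ℝ] ℂ) := fun x =>
    φ (c + x.1 * cexp (x.2 * I)) • P' x +
      (x.1 * cexp (x.2 * I)) • ((Lp x).comp (P' x)) with hf'
  set g' : ℝ × ℝ → (ℝ × ℝ →L[ℝ] ℂ) := fun x =>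
    φ (c + x.1 * cexp (x.2 * I)) • (I • e' x) +
      (I * cexp (x.2 * I)) • ((Lp x).comp (P' x)) with hg'
  have hsub : ∀ x ∈ (Ioo (min 0 R) (max 0 R) ×ˢ
      Ioo (min (-Real.pi) Real.pi) (max (-Real.pi) Real.pi)),
      x ∈ uIcc (0 : ℝ) R ×ˢ uIcc (-Real.pi) Real.pi := by
    rintro x ⟨hx, hy⟩
    exact ⟨Ioo_subset_Icc_self hx, Ioo_subset_Icc_self hy⟩
  have hsum : ∀ x ∈ uIcc (0 : ℝ) R ×ˢ uIcc (-Real.pi) Real.pi,
      f' x (1, 0) + g' x (0, 1) = 2 * (x.1 : ℂ) * d (c + x.1 * cexp (x.2 * I)) := by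
    intro x hx
    have h1 := hLd _ (hmem x hx)
    have h2 := dbar_rot (Lp x) (cexp (x.2 * I))
    have h3 : conj (cexp (x.2 * I)) = cexp (-(x.2 * I)) := by
      rw [← exp_conj]
      simp
    have h4 : cexp (x.2 * I) * cexp (-(x.2 * I)) = 1 := by
      rw [← Complex.exp_add]
      simp
    have h5 : Lp x ((x.1 : ℂ) * cexp (x.2 * I) * I) = x.1 * Lp x (I * cexp (x.2 * I)) := by
      have : (x.1 : ℂ) * cexp (x.2 * I) * I = x.1 • (I * cexp (x.2 * I)) := by
        rw [real_smul]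
        ring
      rw [this, map_smul, real_smul]
    rw [← h1]
    simp only [hf', hg', hP', he', _root_.add_apply, _root_.smul_apply,
      ContinuousLinearMap.coe_comp, Function.comp_apply, ContinuousLinearMap.smulRight_apply,
      ContinuousLinearMap.coe_fst', ContinuousLinearMap.coe_snd', one_smul, zero_smul, add_zero,
      zero_add, smul_eq_mul]
    rw [h5]
    change φ (c + x.1 * cexp (x.2 * I)) * cexp (x.2 * I) +
      x.1 * cexp (x.2 * I) * Lp x (cexp (x.2 * I)) +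
      (φ (c + x.1 * cexp (x.2 * I)) * (I * (cexp (x.2 * I) * I)) +
        I * cexp (x.2 * I) * (x.1 * Lp x (I * cexp (x.2 * I)))) =
      2 * x.1 * ((Lp x 1 + I * Lp x I) / 2)
    rw [h3] at h2
    linear_combination (x.1 * cexp (x.2 * I)) * h2 +
      (φ (c + x.1 * cexp (x.2 * I)) * cexp (x.2 * I)) * I_mul_I +
      (x.1 * (Lp x 1 + I * Lp x I)) * h4
  have hdiv := integral2_divergence_prod_of_hasFDerivAt_off_countable f g f' g' 0
    (-Real.pi) R Real.pi ∅ countable_empty (hφ2.mul (by fun_prop)) (hφ2.mul (by fun_prop))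
    (by
      rintro x ⟨hx, -⟩
      have hx2 := hsub x hx
      have h1 := (hL _ (hmem x hx2)).comp x (hP x)
      have h2 : HasFDerivAt (fun y : ℝ × ℝ => (y.1 : ℂ) * cexp (y.2 * I)) (P' x) x := by
        have := (hP x).sub_const c
        refine this.congr_of_eventuallyEq (Eventually.of_forall fun y => ?_)
        simp
      exact h1.mul h2)
    (by
      rintro x ⟨hx, -⟩
      have hx2 := hsub x hx
      have h1 := (hL _ (hmem x hx2)).comp x (hP x)
      exact h1.mul ((he x).const_mul I))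
    (by
      have h1 : ContinuousOn (fun x : ℝ × ℝ => 2 * (x.1 : ℂ) * d (c + x.1 * cexp (x.2 * I)))
          (uIcc (0 : ℝ) R ×ˢ uIcc (-Real.pi) Real.pi) :=
        ContinuousOn.mul (by fun_prop) hd2
      have h2 := h1.integrableOn_compact (μ := volume) (isCompact_uIcc.prod isCompact_uIcc)
      exact h2.congr_fun (fun x hx => (hsum x hx).symm)
        (measurableSet_uIcc.prod measurableSet_uIcc))
  have hl : ∫ ρ in (0 : ℝ)..R, ∫ θ in (-Real.pi)..Real.pi,
      2 * (ρ : ℂ) * d (c + ρ * cexp (θ * I)) =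
      ∫ ρ in (0 : ℝ)..R, ∫ θ in (-Real.pi)..Real.pi, f' (ρ, θ) (1, 0) + g' (ρ, θ) (0, 1) := by
    refine intervalIntegral.integral_congr fun ρ hρ => ?_
    refine intervalIntegral.integral_congr fun θ hθ => ?_
    exact (hsum (ρ, θ) ⟨hρ, hθ⟩).symm
  rw [hl, hdiv]
  have h1 : ∀ x : ℝ, g (x, Real.pi) = g (x, -Real.pi) := by
    intro x
    simp only [hg]
    have e1 : cexp ((Real.pi : ℝ) * I) = -1 := exp_pi_mul_I
    have e2 : cexp (((-Real.pi : ℝ) : ℂ) * I) = -1 := by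
      push_cast
      rw [neg_mul, Complex.exp_neg, exp_pi_mul_I]
      norm_num
    rw [e1, e2]
  have h2 : ∫ x in (0 : ℝ)..R, g (x, Real.pi) = ∫ x in (0 : ℝ)..R, g (x, -Real.pi) :=
    intervalIntegral.integral_congr fun x _ => h1 x
  have h3 : ∫ y in (-Real.pi)..Real.pi, f (0, y) = 0 := by
    simp [hf]
  rw [h2, h3, sub_self, zero_add, sub_zero]

/-- Green's formula -/
theorem green (φ d : ℂ → ℂ) (c : ℂ) (R : ℝ) (hR : 0 < R)
    (h : ∀ z ∈ closedBall c R, HasDbar φ (d z) z) (hd : ContinuousOn d (closedBall c R)) :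
    2 * ∫ z in ball c R, d z =
      ∫ θ in (-Real.pi)..Real.pi, φ (c + R * cexp (θ * I)) * (R * cexp (θ * I)) := by
  rw [← green_polar φ d c R hR h hd]
  have e1 : ∫ z in ball c R, d z = ∫ z : ℂ, (ball (0 : ℂ) R).indicator (fun w => d (c + w)) z := by
    rw [← integral_indicator measurableSet_ball, ← integral_add_left_eq_self _ c]
    refine integral_congr_ae (Eventually.of_forall fun z => ?_)
    simp only [indicator, mem_ball, dist_eq_norm, add_sub_cancel_left, sub_zero]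
  rw [e1, ← Complex.integral_comp_polarCoord_symm]
  have e2 : ∀ p ∈ polarCoord.target, p.1 • (ball (0 : ℂ) R).indicator (fun w => d (c + w))
      (Complex.polarCoord.symm p) =
      (Ioo (0 : ℝ) R ×ˢ Ioo (-Real.pi) Real.pi).indicator
        (fun p : ℝ × ℝ => (p.1 : ℂ) * d (c + p.1 * cexp (p.2 * I))) p := by
    rintro ⟨ρ, θ⟩ hp
    have hp1 : 0 < ρ := hp.1
    have hp2 : θ ∈ Ioo (-Real.pi) Real.pi := hp.2
    have e3 : Complex.polarCoord.symm (ρ, θ) = ρ * cexp (θ * I) := by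
      rw [Complex.polarCoord_symm_apply, Complex.exp_mul_I]
      push_cast
      rfl
    rw [e3]
    by_cases hρ : ρ < R
    · rw [indicator_of_mem, indicator_of_mem]
      · rw [real_smul]
      · exact ⟨⟨hp1, hρ⟩, hp2⟩
      · rw [mem_ball_zero_iff, norm_mul, norm_exp_ofReal_mul_I, mul_one, norm_real,
          Real.norm_eq_abs, abs_of_pos hp1]
        exact hρ
    · rw [indicator_of_notMem, indicator_of_notMem, smul_zero]
      · exact fun hh => hρ hh.1.2
      · rw [mem_ball_zero_iff, norm_mul, norm_exp_ofReal_mul_I, mul_one, norm_real,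
          Real.norm_eq_abs, abs_of_pos hp1]
        exact hρ
  rw [setIntegral_congr_fun (polarCoord.open_target.measurableSet) e2]
  rw [setIntegral_indicator (measurableSet_Ioo.prod measurableSet_Ioo)]
  have e4 : polarCoord.target ∩ Ioo (0 : ℝ) R ×ˢ Ioo (-Real.pi) Real.pi =
      Ioo (0 : ℝ) R ×ˢ Ioo (-Real.pi) Real.pi := by
    apply inter_eq_right.2
    rintro ⟨ρ, θ⟩ ⟨h1, h2⟩
    exact ⟨h1.1, h2⟩
  have hcont : Continuous fun x : ℝ × ℝ => c + x.1 * cexp (x.2 * I) := by fun_prop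
  have hcd : ContinuousOn (fun p : ℝ × ℝ => (p.1 : ℂ) * d (c + p.1 * cexp (p.2 * I)))
      (Icc (0 : ℝ) R ×ˢ Icc (-Real.pi) Real.pi) := by
    refine ContinuousOn.mul (by fun_prop) (hd.comp hcont.continuousOn ?_)
    rintro x ⟨hx, -⟩
    rw [mem_closedBall, dist_eq_norm, add_sub_cancel_left, norm_mul, norm_exp_ofReal_mul_I,
      mul_one, norm_real, Real.norm_eq_abs, abs_of_nonneg hx.1]
    exact hx.2
  have hint : IntegrableOn (fun p : ℝ × ℝ => (p.1 : ℂ) * d (c + p.1 * cexp (p.2 * I)))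
      (Ioo (0 : ℝ) R ×ˢ Ioo (-Real.pi) Real.pi) (volume.prod volume) := by
    have := hcd.integrableOn_compact (μ := volume) (isCompact_Icc.prod isCompact_Icc)
    exact this.mono_set (prod_mono Ioo_subset_Icc_self Ioo_subset_Icc_self)
  have e5 : ∫ p in polarCoord.target ∩ Ioo (0 : ℝ) R ×ˢ Ioo (-Real.pi) Real.pi,
      (p.1 : ℂ) * d (c + p.1 * cexp (p.2 * I)) = ∫ ρ in (0 : ℝ)..R,
      ∫ θ in (-Real.pi)..Real.pi, (ρ : ℂ) * d (c + ρ * cexp (θ * I)) := by
    rw [e4, Measure.volume_eq_prod, setIntegral_prod _ hint,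
      intervalIntegral.integral_of_le hR.le, integral_Ioc_eq_integral_Ioo]
    refine setIntegral_congr_fun measurableSet_Ioo fun ρ _ => ?_
    simp only
    rw [intervalIntegral.integral_of_le (by linarith [Real.pi_pos]), integral_Ioc_eq_integral_Ioo]
  rw [e5, ← intervalIntegral.integral_const_mul]
  refine intervalIntegral.integral_congr fun ρ _ => ?_
  change 2 * ∫ θ in (-Real.pi)..Real.pi, (ρ : ℂ) * d (c + ρ * cexp (θ * I)) = _
  rw [← intervalIntegral.integral_const_mul]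
  refine intervalIntegral.integral_congr fun θ _ => ?_
  ring

end Pool.Agent.Y251.CP
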