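import Mathlib
set_option autoImplicit false

/-! # Hölder and Jensen inequalities, approximate identities and circle potentials -/

namespace Pool.Agent.Y251.CP

open MeasureTheory Set Metric Complex Filter
open scoped ENNReal NNReal ComplexConjugate Topology

section gen
variable {α : Type*} [MeasurableSpace α] (μ : Measure α)

theorem holderq {q : ℝ} (hq : 1 < q) {f g : α → ℝ≥0∞} (hf : AEMeasurable f μ)
    (hg : AEMeasurable g μ) :
    (∫⁻ a, f a * g a ∂μ) ^ q ≤ (∫⁻ a, f a ^ q ∂μ) * (∫⁻ a, g a ^ (q / (q - 1)) ∂μ) ^ (q - 1) := by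
  have hq0 : 0 < q := by linarith
  have hq1 : 0 < q - 1 := by linarith
  have hc : q.HolderConjugate (q / (q - 1)) := Real.HolderConjugate.conjExponent hq
  have h := ENNReal.lintegral_mul_le_Lp_mul_Lq μ hc hf hg
  have h2 := ENNReal.rpow_le_rpow h hq0.le
  refine h2.trans (le_of_eq ?_)
  rw [ENNReal.mul_rpow_of_nonneg _ _ hq0.le, ← ENNReal.rpow_mul, ← ENNReal.rpow_mul,
    one_div_mul_cancel hq0.ne', ENNReal.rpow_one]
  congr 2
  field_simp

theorem jensen {q : ℝ} (hq : 1 < q) {u k : α → ℝ≥0∞} (hu : AEMeasurable u μ)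
    (hk : AEMeasurable k μ) :
    (∫⁻ a, u a * k a ∂μ) ^ q ≤ (∫⁻ a, u a ^ q * k a ∂μ) * (∫⁻ a, k a ∂μ) ^ (q - 1) := by
  have hq0 : 0 < q := by linarith
  have hq1 : 0 < q - 1 := by linarith
  have h := holderq μ hq (f := fun a => u a * k a ^ (1 / q)) (g := fun a => k a ^ (1 - 1 / q))
    (hu.mul (hk.pow_const _)) (hk.pow_const _)
  have h01 : 0 ≤ 1 - 1 / q := by
    rw [sub_nonneg, div_le_one hq0]
    exact hq.le
  have e1 : ∀ a, u a * k a ^ (1 / q) * k a ^ (1 - 1 / q) = u a * k a := by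
    intro a
    rw [mul_assoc, ← ENNReal.rpow_add_of_nonneg _ _ (by positivity) h01]
    norm_num
  have e2 : ∀ a, (u a * k a ^ (1 / q)) ^ q = u a ^ q * k a := by
    intro a
    rw [ENNReal.mul_rpow_of_nonneg _ _ hq0.le, ← ENNReal.rpow_mul, one_div_mul_cancel hq0.ne',
      ENNReal.rpow_one]
  have e3 : ∀ a, (k a ^ (1 - 1 / q)) ^ (q / (q - 1)) = k a := by
    intro a
    rw [← ENNReal.rpow_mul]
    have : (1 - 1 / q) * (q / (q - 1)) = 1 := by field_simp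
    rw [this, ENNReal.rpow_one]
  simp only [e1, e2, e3] at h
  exact h

theorem split32 {q : ℝ} (hq : 3 / 2 ≤ q) {u k : α → ℝ≥0∞} (hu : AEMeasurable u μ)
    (hk : AEMeasurable k μ) :
    (∫⁻ a, u a * k a ∂μ) ^ q ≤ (∫⁻ a, u a ^ q * k a ^ (3 / 2 : ℝ) ∂μ) *
      (∫⁻ a, k a ^ ((q - 3 / 2) / (q - 1)) ∂μ) ^ (q - 1) := by
  have hq0 : 0 < q := by linarith
  have hq1 : 0 < q - 1 := by linarith
  have h := holderq μ (by linarith) (f := fun a => u a * k a ^ (3 / 2 / q))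
    (g := fun a => k a ^ (1 - 3 / 2 / q)) (hu.mul (hk.pow_const _)) (hk.pow_const _)
  have h01 : 0 ≤ 1 - 3 / 2 / q := by
    rw [sub_nonneg, div_le_one hq0]
    exact hq
  have e1 : ∀ a, u a * k a ^ (3 / 2 / q) * k a ^ (1 - 3 / 2 / q) = u a * k a := by
    intro a
    rw [mul_assoc, ← ENNReal.rpow_add_of_nonneg _ _ (by positivity) h01]
    norm_num
  have e2 : ∀ a, (u a * k a ^ (3 / 2 / q)) ^ q = u a ^ q * k a ^ (3 / 2 : ℝ) := by
    intro a
    rw [ENNReal.mul_rpow_of_nonneg _ _ hq0.le, ← ENNReal.rpow_mul, div_mul_cancel₀ _ hq0.ne']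
  have e3 : ∀ a, (k a ^ (1 - 3 / 2 / q)) ^ (q / (q - 1)) = k a ^ ((q - 3 / 2) / (q - 1)) := by
    intro a
    rw [← ENNReal.rpow_mul]
    congr 1
    field_simp
  simp only [e1, e2, e3] at h
  exact h

theorem add_rpow_le {q : ℝ} (hq : 1 ≤ q) (a b : ℝ≥0∞) :
    (a + b) ^ q ≤ 2 ^ (q - 1) * (a ^ q + b ^ q) := by
  have h := ENNReal.rpow_add_le_mul_rpow_add_rpow a b hq
  exact h

end gen

/-- approximate identity `ε² / (|v|² + ε²)²` -/
noncomputable def KK (ε : ℝ) (v : ℂ) : ℝ≥0∞ := ENNReal.ofReal (ε ^ 2 / (‖v‖ ^ 2 + ε ^ 2) ^ 2)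

theorem KK_meas (ε : ℝ) : Measurable (KK ε) := by
  unfold KK
  fun_prop

theorem KK_int : ∃ C : ℝ≥0, ∀ ε : ℝ, 0 < ε → ∫⁻ v : ℂ, KK ε v ≤ C := by
  have h1 : Integrable (fun v : ℂ => (1 + ‖v‖ ^ 2) ^ (-(4 : ℝ) / 2)) :=
    integrable_rpow_neg_one_add_norm_sq (by
      rw [Complex.finrank_real_complex]
      norm_num)
  set C : ℝ := ∫ v : ℂ, (1 + ‖v‖ ^ 2) ^ (-(4 : ℝ) / 2) with hC
  refine ⟨C.toNNReal, fun ε hε => ?_⟩
  have h2 : ∀ v : ℂ, ε ^ 2 / (‖v‖ ^ 2 + ε ^ 2) ^ 2 =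
      (ε ^ 2)⁻¹ * (1 + ‖ε⁻¹ • v‖ ^ 2) ^ (-(4 : ℝ) / 2) := by
    intro v
    have e1 : (-(4 : ℝ) / 2) = ((-2 : ℤ) : ℝ) := by norm_num
    rw [e1, Real.rpow_intCast, norm_smul, Real.norm_eq_abs, abs_of_pos (inv_pos.2 hε), zpow_neg]
    norm_cast
    have : (0 : ℝ) < ‖v‖ ^ 2 + ε ^ 2 := by positivity
    field_simp
    ring
  have h3 : Integrable (fun v : ℂ => (ε ^ 2)⁻¹ * (1 + ‖ε⁻¹ • v‖ ^ 2) ^ (-(4 : ℝ) / 2)) := by
    refine Integrable.const_mul ?_ _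
    exact (integrable_comp_smul_iff volume (fun v : ℂ => (1 + ‖v‖ ^ 2) ^ (-(4 : ℝ) / 2))
      (inv_pos.2 hε).ne').2 h1
  have h4 : ∫ v : ℂ, (ε ^ 2)⁻¹ * (1 + ‖ε⁻¹ • v‖ ^ 2) ^ (-(4 : ℝ) / 2) = C := by
    rw [integral_const_mul, Measure.integral_comp_smul volume
      (fun v : ℂ => (1 + ‖v‖ ^ 2) ^ (-(4 : ℝ) / 2)), Complex.finrank_real_complex, ← hC,
      smul_eq_mul, abs_of_pos (by positivity)]
    field_simp
  unfold KK
  simp_rw [h2]
  rw [← ofReal_integral_eq_lintegral_ofReal h3 (Eventually.of_forall fun v => by positivity), h4]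
  rfl

theorem lint_sub (f : ℂ → ℝ≥0∞) (z : ℂ) : ∫⁻ v : ℂ, f (v - z) = ∫⁻ v, f v :=
  lintegral_sub_right_eq_self f z

theorem lint_sub' (f : ℂ → ℝ≥0∞) (z : ℂ) : ∫⁻ v : ℂ, f (z - v) = ∫⁻ v, f v :=
  lintegral_sub_left_eq_self f z

theorem KK_sub (ε : ℝ) (v z : ℂ) : KK ε (v - z) = KK ε (z - v) := by
  unfold KK
  rw [norm_sub_rev]

/-- the convolution with the approximate identity is bounded on `L^q` -/
theorem conv_KK {q : ℝ} (hq : 1 < q) : ∃ C : ℝ≥0, ∀ ε : ℝ, 0 < ε → ∀ f : ℂ → ℝ≥0∞,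
    Measurable f → ∫⁻ z : ℂ, (∫⁻ w, f w * KK ε (w - z)) ^ q ≤ C * ∫⁻ w, f w ^ q := by
  obtain ⟨K, hK⟩ := KK_int
  refine ⟨K ^ q, fun ε hε f hf => ?_⟩
  have hq1 : 0 ≤ q - 1 := by linarith
  have hm : Measurable fun p : ℂ × ℂ => f p.2 ^ q * KK ε (p.2 - p.1) :=
    ((hf.comp measurable_snd).pow_const _).mul ((KK_meas ε).comp (measurable_snd.sub measurable_fst))
  calc ∫⁻ z : ℂ, (∫⁻ w, f w * KK ε (w - z)) ^ q
      ≤ ∫⁻ z : ℂ, (∫⁻ w, f w ^ q * KK ε (w - z)) * (K : ℝ≥0∞) ^ (q - 1) := by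
        refine lintegral_mono fun z => ?_
        have hkm : Measurable fun w : ℂ => KK ε (w - z) :=
          (KK_meas ε).comp (measurable_id.sub_const z)
        refine (jensen volume hq hf.aemeasurable hkm.aemeasurable).trans ?_
        have h9 : ∫⁻ w : ℂ, KK ε (w - z) ≤ K := by
          rw [lint_sub (KK ε) z]
          exact hK ε hε
        exact mul_le_mul_right (ENNReal.rpow_le_rpow h9 hq1) _
    _ = (∫⁻ w : ℂ, ∫⁻ z, f w ^ q * KK ε (w - z)) * (K : ℝ≥0∞) ^ (q - 1) := by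
        rw [lintegral_mul_const' _ _ (by simp [ENNReal.rpow_eq_top_iff]; intro; linarith)]
        congr 1
        exact lintegral_lintegral_swap hm.aemeasurable
    _ ≤ (∫⁻ w : ℂ, f w ^ q * K) * (K : ℝ≥0∞) ^ (q - 1) := by
        refine mul_le_mul_left (lintegral_mono fun w => ?_) _
        have hkm : Measurable fun z : ℂ => KK ε (w - z) :=
          (KK_meas ε).comp (measurable_const.sub measurable_id)
        rw [lintegral_const_mul _ hkm, lint_sub' (KK ε) w]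
        exact mul_le_mul_right (hK ε hε) _
    _ = _ := by
        rw [lintegral_mul_const _ (hf.pow_const q), mul_assoc]
        have : (K : ℝ≥0∞) * (K : ℝ≥0∞) ^ (q - 1) = ((K ^ q : ℝ≥0) : ℝ≥0∞) := by
          rw [ENNReal.coe_rpow_of_nonneg _ (by linarith)]
          conv_lhs => rw [← ENNReal.rpow_one (K : ℝ≥0∞)]
          rw [ENNReal.rpow_one]
          nth_rewrite 1 [← ENNReal.rpow_one (K : ℝ≥0∞)]
          rw [← ENNReal.rpow_add_of_nonneg _ _ zero_le_one hq1]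
          congr 1
          ring
        rw [this, mul_comm]

end Pool.Agent.Y251.CP
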