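import Pool.Agent.Y251.CP.D1
import Pool.Agent.Y251.CP.D3
set_option autoImplicit false

/-! # Densities with a one-sided derivative: the basic inequality for `exp(-i t |z - z0|²)` -/

namespace Pool.Agent.Y251.CP

open MeasureTheory Set Metric Complex Filter
open scoped ENNReal NNReal ComplexConjugate Topology

/-- the Wirtinger derivative -/
noncomputable def dbar (φ : ℂ → ℂ) (z : ℂ) : ℂ := (fderiv ℝ φ z 1 + I * fderiv ℝ φ z I) / 2

theorem HasDbar.dbar_eq {φ : ℂ → ℂ} {d z : ℂ} (h : HasDbar φ d z) : dbar φ z = d := by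
  obtain ⟨L, hL, rfl⟩ := h
  unfold dbar
  rw [hL.fderiv]

theorem HasDbar.congr_ev {φ ψ : ℂ → ℂ} {d z : ℂ} (h : HasDbar φ d z) (he : ψ =ᶠ[𝓝 z] φ) :
    HasDbar ψ d z := by
  obtain ⟨L, hL, rfl⟩ := h
  exact ⟨L, hL.congr_of_eventuallyEq he, rfl⟩

theorem fatou_le {α : Type*} [MeasurableSpace α] (μ : Measure α) (G : ℕ → α → ℝ≥0∞)
    (g : α → ℝ≥0∞) (hG : ∀ n, Measurable (G n)) (B : ℝ≥0∞) (hB : ∀ n, ∫⁻ x, G n x ∂μ ≤ B)
    (hl : ∀ᵐ x ∂μ, Tendsto (fun n => G n x) atTop (𝓝 (g x))) : ∫⁻ x, g x ∂μ ≤ B := by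
  have h1 : ∫⁻ x, g x ∂μ = ∫⁻ x, liminf (fun n => G n x) atTop ∂μ := by
    refine lintegral_congr_ae ?_
    filter_upwards [hl] with x hx
    exact hx.liminf_eq.symm
  rw [h1]
  refine (lintegral_liminf_le hG).trans ?_
  refine liminf_le_of_frequently_le' (Frequently.of_forall hB)

/-- the test function -/
noncomputable def th (t : ℝ) (z0 : ℂ) (ε : ℝ) (z : ℂ) : ℂ :=
  cexp (-(I * t) * ((z - z0) * conj (z - z0))) *
    (conj (z - z0) * ((z - z0) * conj (z - z0) + (ε : ℂ) ^ 2)⁻¹)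

theorem den_ne (z0 : ℂ) {ε : ℝ} (hε : 0 < ε) (z : ℂ) :
    (z - z0) * conj (z - z0) + (ε : ℂ) ^ 2 ≠ 0 := by
  rw [mul_conj, normSq_eq_norm_sq]
  norm_cast
  positivity

theorem th_dbar (t : ℝ) (z0 : ℂ) {ε : ℝ} (hε : 0 < ε) (z : ℂ) :
    HasDbar (th t z0 ε) (cexp (-(I * t) * ((z - z0) * conj (z - z0))) *
      (-(I * t) * ((z - z0) * conj (z - z0)) * ((z - z0) * conj (z - z0) + (ε : ℂ) ^ 2)⁻¹ +
        (ε : ℂ) ^ 2 * ((z - z0) * conj (z - z0) + (ε : ℂ) ^ 2)⁻¹ ^ 2)) z := by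
  have h1 : HasDbar (fun w => w - z0) 0 z :=
    ((hasDbar_id z).sub (hasDbar_const z0 z)).congr (by ring)
  have h2 : HasDbar (fun w => conj (w - z0)) 1 z := by
    have : HasDerivAt (fun w : ℂ => w - z0) 1 z := (hasDerivAt_id z).sub_const z0
    exact (hasDbar_conj_holo this).congr (by simp)
  have h3 := h1.mul h2
  have h4 := (h3.const_mul (-(I * t))).cexp
  have h5 := (h3.add (hasDbar_const ((ε : ℂ) ^ 2) z)).inv (den_ne z0 hε z)
  have h6 := h4.mul (h2.mul h5)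
  refine HasDbar.congr h6 ?_
  have hne := den_ne z0 hε z
  field_simp
  ring

theorem th_contDiff (t : ℝ) (z0 : ℂ) {ε : ℝ} (hε : 0 < ε) (n : WithTop ℕ∞) :
    ContDiff ℝ n (th t z0 ε) := by
  have h1 : ContDiff ℝ n (fun w : ℂ => w - z0) := contDiff_id.sub contDiff_const
  have h2 : ContDiff ℝ n (fun w : ℂ => conj (w - z0)) :=
    (conjCLE : ℂ →L[ℝ] ℂ).contDiff.comp h1
  have h3 := h1.mul h2
  have h4 : ContDiff ℝ n fun w : ℂ => cexp (-(I * t) * ((w - z0) * conj (w - z0))) :=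
    (contDiff_const.mul h3).cexp
  have h5 : ContDiff ℝ n fun w : ℂ => ((w - z0) * conj (w - z0) + (ε : ℂ) ^ 2)⁻¹ :=
    (h3.add contDiff_const).inv fun z => den_ne z0 hε z
  exact h4.mul (h2.mul h5)

theorem th_norm (t : ℝ) (z0 : ℂ) {ε : ℝ} (hε : 0 < ε) (z : ℂ) :
    ‖th t z0 ε z‖ₑ ≤ ‖z0 - z‖ₑ⁻¹ := by
  by_cases hz : z = z0
  · rw [hz, sub_self, enorm_zero, ENNReal.inv_zero]
    exact le_top
  have hne : z - z0 ≠ 0 := sub_ne_zero.2 hz
  have hpos : 0 < ‖z - z0‖ := norm_pos_iff.2 hne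
  have h1 : ‖th t z0 ε z‖ ≤ ‖z0 - z‖⁻¹ := by
    unfold th
    have e1 : -(I * (t : ℂ)) * ((z - z0) * conj (z - z0)) =
        ((-(t * ‖z - z0‖ ^ 2) : ℝ) : ℂ) * I := by
      rw [mul_conj, normSq_eq_norm_sq]
      push_cast
      ring
    rw [norm_mul, e1, norm_exp_ofReal_mul_I, one_mul, norm_mul, norm_inv, RCLike.norm_conj,
      mul_conj, normSq_eq_norm_sq]
    norm_cast
    rw [Real.norm_eq_abs, abs_of_pos (by positivity), norm_sub_rev z0 z, ← div_eq_mul_inv,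
      div_le_iff₀ (by positivity)]
    rw [mul_add, pow_two ‖z - z0‖, ← mul_assoc, inv_mul_cancel₀ hpos.ne', one_mul]
    have : 0 ≤ ‖z - z0‖⁻¹ * ε ^ 2 := by positivity
    linarith
  rw [← ofReal_norm, ← ofReal_norm, ← ENNReal.ofReal_inv_of_pos (by rw [norm_sub_rev]; exact hpos)]
  exact ENNReal.ofReal_le_ofReal h1

/-- `∂f/∂(conj z) = a ν` in the sense of distributions -/
def WD (f : ℂ → ℂ) (ν : Measure ℂ) (a : ℂ → ℂ) : Prop :=
  ∀ φ : ℂ → ℂ, ContDiff ℝ ((⊤ : ℕ∞) : WithTop ℕ∞) φ → HasCompactSupport φ →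
    ∫ z, f z * dbar φ z = -∫ z, φ z * a z ∂ν

/-- the potential of `|a| ν` -/
noncomputable def pot (ν : Measure ℂ) (a : ℂ → ℂ) (z : ℂ) : ℝ≥0∞ := ∫⁻ w, ‖a w‖ₑ * ‖z - w‖ₑ⁻¹ ∂ν

/-- the regularised kernel -/
noncomputable def rk (t : ℝ) (z0 : ℂ) (ε : ℝ) (z : ℂ) : ℂ :=
  cexp (-(I * t) * ((z - z0) * conj (z - z0))) *
    ((z - z0) * conj (z - z0) * ((z - z0) * conj (z - z0) + (ε : ℂ) ^ 2)⁻¹)

theorem exp_norm (t : ℝ) (z0 z : ℂ) :
    ‖cexp (-(I * t) * ((z - z0) * conj (z - z0)))‖ = 1 := by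
  have e1 : -(I * (t : ℂ)) * ((z - z0) * conj (z - z0)) =
      ((-(t * ‖z - z0‖ ^ 2) : ℝ) : ℂ) * I := by
    rw [mul_conj, normSq_eq_norm_sq]
    push_cast
    ring
  rw [e1, norm_exp_ofReal_mul_I]

theorem rk_norm (t : ℝ) (z0 : ℂ) {ε : ℝ} (hε : 0 < ε) (z : ℂ) : ‖rk t z0 ε z‖ ≤ 1 := by
  unfold rk
  rw [norm_mul, exp_norm, one_mul, mul_conj, normSq_eq_norm_sq]
  norm_cast
  rw [Real.norm_eq_abs, abs_of_nonneg (by positivity), ← div_eq_mul_inv,
    div_le_one (by positivity)]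
  have : 0 ≤ ε ^ 2 := by positivity
  linarith

theorem rk_cont (t : ℝ) {ε : ℝ} (hε : 0 < ε) :
    Continuous fun p : ℂ × ℂ => rk t p.1 ε p.2 := by
  unfold rk
  have h1 : Continuous fun p : ℂ × ℂ => (p.2 - p.1) * conj (p.2 - p.1) := by fun_prop
  have h2 : Continuous fun p : ℂ × ℂ => ((p.2 - p.1) * conj (p.2 - p.1) + (ε : ℂ) ^ 2)⁻¹ :=
    (h1.add continuous_const).inv₀ fun p => den_ne p.1 hε p.2
  exact (continuous_exp.comp (continuous_const.mul h1)).mul (h1.mul h2)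

theorem core {f a : ℂ → ℂ} {ν : Measure ℂ} (hfs : ∀ z, 1 / 2 ≤ ‖z‖ → f z = 0)
    (hfi : Integrable f) (hw : WD f ν a) (t : ℝ) (z0 : ℂ) {ε : ℝ} (hε : 0 < ε) :
    ‖t‖ₑ * ‖∫ z, f z * rk t z0 ε z‖ₑ ≤ (∫⁻ z, ‖f z‖ₑ * KK ε (z - z0)) + pot ν a z0 := by
  obtain ⟨χ, hχ1, hχ2, hχ3, hχ4, hχ5⟩ : ∃ χ : ℂ → ℂ, ContDiff ℝ ((⊤ : ℕ∞) : WithTop ℕ∞) χ ∧
      HasCompactSupport χ ∧ (∀ z, ‖χ z‖ ≤ 1) ∧ (∀ z, ‖z‖ < 1 → χ z = 1) ∧ Continuous χ := by
    let b : ContDiffBump (0 : ℂ) := ⟨1, 2, one_pos, one_lt_two⟩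
    refine ⟨fun z => (b z : ℂ), ofRealCLM.contDiff.comp b.contDiff, ?_, ?_, ?_, ?_⟩
    · exact b.hasCompactSupport.comp_left (g := fun r : ℝ => (r : ℂ)) (by simp)
    · intro z
      rw [norm_real, Real.norm_eq_abs, abs_of_nonneg b.nonneg]
      exact b.le_one
    · intro z hz
      have : b z = 1 := by
        apply b.one_of_mem_closedBall
        rw [mem_closedBall_zero_iff]
        exact hz.le
      simp only [this, ofReal_one]
    · exact continuous_ofReal.comp b.continuous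
  set φ : ℂ → ℂ := fun z => th t z0 ε z * χ z with hφ
  have h1 := hw φ ((th_contDiff t z0 hε _).mul hχ1) hχ2.mul_left
  have h2 : ∀ z, f z * dbar φ z = -(I * t) * (f z * rk t z0 ε z) +
      f z * (cexp (-(I * t) * ((z - z0) * conj (z - z0))) *
        ((ε : ℂ) ^ 2 * ((z - z0) * conj (z - z0) + (ε : ℂ) ^ 2)⁻¹ ^ 2)) := by
    intro z
    by_cases hz : 1 / 2 ≤ ‖z‖
    · rw [hfs z hz]
      ring
    · have he : φ =ᶠ[𝓝 z] th t z0 ε := by
        have hz1 : ‖z‖ < 1 := by linarith [not_le.1 hz]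
        have : ∀ᶠ w : ℂ in 𝓝 z, ‖w‖ < 1 := (isOpen_lt continuous_norm continuous_const).mem_nhds hz1
        filter_upwards [this] with w hw1
        rw [hφ]
        simp only
        rw [hχ4 w hw1, mul_one]
      have h3 := ((th_dbar t z0 hε z).congr_ev he).dbar_eq
      rw [h3]
      unfold rk
      ring
  have hK : ∀ z, ‖f z * (cexp (-(I * t) * ((z - z0) * conj (z - z0))) *
        ((ε : ℂ) ^ 2 * ((z - z0) * conj (z - z0) + (ε : ℂ) ^ 2)⁻¹ ^ 2))‖ₑ =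
      ‖f z‖ₑ * KK ε (z - z0) := by
    intro z
    rw [enorm_mul]
    congr 1
    unfold KK
    rw [← ofReal_norm]
    congr 1
    rw [norm_mul, exp_norm, one_mul, norm_mul, norm_pow, norm_pow, norm_inv, mul_conj,
      normSq_eq_norm_sq]
    norm_cast
    rw [Real.norm_eq_abs, Real.norm_eq_abs, abs_of_nonneg hε.le, abs_of_nonneg (by positivity)]
    rw [inv_pow, div_eq_mul_inv]
  have hc1 : Continuous fun z => rk t z0 ε z :=
    (rk_cont t hε).comp (continuous_const.prodMk continuous_id)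
  have hi1 : Integrable fun z => f z * rk t z0 ε z := by
    refine hfi.mul_bdd (c := 1) hc1.aestronglyMeasurable ?_
    exact Eventually.of_forall fun z => rk_norm t z0 hε z
  have hi2 : Integrable fun z => f z * (cexp (-(I * t) * ((z - z0) * conj (z - z0))) *
        ((ε : ℂ) ^ 2 * ((z - z0) * conj (z - z0) + (ε : ℂ) ^ 2)⁻¹ ^ 2)) := by
    have hc2 : Continuous fun z => (cexp (-(I * t) * ((z - z0) * conj (z - z0))) *
        ((ε : ℂ) ^ 2 * ((z - z0) * conj (z - z0) + (ε : ℂ) ^ 2)⁻¹ ^ 2)) := by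
      have h3 : Continuous fun z : ℂ => (z - z0) * conj (z - z0) := by fun_prop
      have h4 : Continuous fun z : ℂ => ((z - z0) * conj (z - z0) + (ε : ℂ) ^ 2)⁻¹ :=
        (h3.add continuous_const).inv₀ fun p => den_ne z0 hε p
      exact (continuous_exp.comp (continuous_const.mul h3)).mul (continuous_const.mul (h4.pow 2))
    refine hfi.mul_bdd (c := (ε ^ 2)⁻¹) hc2.aestronglyMeasurable ?_
    refine Eventually.of_forall fun z => ?_
    rw [norm_mul, exp_norm, one_mul, norm_mul, norm_pow, norm_pow, norm_inv, mul_conj,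
      normSq_eq_norm_sq]
    norm_cast
    rw [Real.norm_eq_abs, Real.norm_eq_abs, abs_of_nonneg hε.le, abs_of_nonneg (by positivity)]
    rw [inv_pow, ← div_eq_mul_inv, div_le_iff₀ (by positivity), ← one_div, div_mul_eq_mul_div,
      le_div_iff₀ (by positivity)]
    have : 0 ≤ ‖z - z0‖ ^ 2 := by positivity
    nlinarith [sq_nonneg (ε ^ 2), sq_nonneg (‖z - z0‖ ^ 2), sq_nonneg ε]
  rw [integral_congr_ae (Eventually.of_forall h2), integral_add (hi1.const_mul _) hi2,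
    integral_const_mul] at h1
  have h5 : I * t * ∫ z, f z * rk t z0 ε z = (∫ z, f z * (cexp (-(I * t) * ((z - z0) *
      conj (z - z0))) * ((ε : ℂ) ^ 2 * ((z - z0) * conj (z - z0) + (ε : ℂ) ^ 2)⁻¹ ^ 2))) +
      ∫ z, φ z * a z ∂ν := by
    linear_combination -h1
  have h6 : ‖t‖ₑ * ‖∫ z, f z * rk t z0 ε z‖ₑ = ‖I * t * ∫ z, f z * rk t z0 ε z‖ₑ := by
    rw [enorm_mul, enorm_mul]
    congr 1
    rw [← ofReal_norm, ← ofReal_norm, ← ofReal_norm, norm_I, norm_real]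
    simp
  rw [h6, h5]
  refine (enorm_add_le _ _).trans ?_
  gcongr
  · refine (enorm_integral_le_lintegral_enorm _).trans (le_of_eq ?_)
    exact lintegral_congr hK
  · refine (enorm_integral_le_lintegral_enorm _).trans ?_
    unfold pot
    refine lintegral_mono fun z => ?_
    rw [enorm_mul, mul_comm]
    gcongr
    rw [hφ]
    simp only
    rw [enorm_mul]
    have h7 : ‖χ z‖ₑ ≤ 1 := by
      rw [← ofReal_norm]
      exact ENNReal.ofReal_le_one.2 (hχ3 z)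
    calc ‖th t z0 ε z‖ₑ * ‖χ z‖ₑ ≤ ‖z0 - z‖ₑ⁻¹ * 1 := by
          gcongr
          exact th_norm t z0 hε z
      _ = _ := mul_one _

end Pool.Agent.Y251.CP
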