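import Pool.Agent.Y251.CP.D4
import Pool.Agent.Helper390.CovarioA
set_option autoImplicit false

/-! # The extension operator of the paraboloid in three dimensions: one-sided derivatives -/

namespace Pool.Agent.Y251.CP

open MeasureTheory Set Metric Complex Filter FourierTransform
open scoped ENNReal NNReal ComplexConjugate Topology RealInnerProductSpace

/-- the operator `f ↦ ∫ f(z) exp(-i t |z - z0|²) dz` -/
noncomputable def gg (f : ℂ → ℂ) (t : ℝ) (z0 : ℂ) : ℂ :=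
  ∫ z, f z * cexp (-(I * t) * ((z - z0) * conj (z - z0)))

theorem gg_meas (f : ℂ → ℂ) (hf : Measurable f) (t : ℝ) : Measurable (gg f t) := by
  have h : StronglyMeasurable (Function.uncurry fun (z0 z : ℂ) =>
      f z * cexp (-(I * t) * ((z - z0) * conj (z - z0)))) := by
    have h1 : Measurable (Function.uncurry fun (z0 z : ℂ) =>
      f z * cexp (-(I * t) * ((z - z0) * conj (z - z0)))) := by
      have h2 : Continuous fun p : ℂ × ℂ =>
          cexp (-(I * t) * ((p.2 - p.1) * conj (p.2 - p.1))) := by fun_prop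
      exact (hf.comp measurable_snd).mul h2.measurable
    exact h1.stronglyMeasurable
  exact h.integral_prod_right.measurable

/-- the fixed time estimate -/
theorem fixed_t {q : ℝ} (hq : 1 < q) : ∃ C : ℝ≥0, ∀ (f a : ℂ → ℂ) (ν : Measure ℂ),
    Measurable f → (∀ z, 1 / 2 ≤ ‖z‖ → f z = 0) → Integrable f → WD f ν a → ∀ t : ℝ,
    ∫⁻ z0, (‖t‖ₑ * ‖gg f t z0‖ₑ) ^ q ≤ C * ((∫⁻ z, ‖f z‖ₑ ^ q) + ∫⁻ z, pot ν a z ^ q) := by
  obtain ⟨K, hK⟩ := conv_KK hq
  refine ⟨2 ^ (q - 1) * (K + 1), fun f a ν hf hfs hfi hw t => ?_⟩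
  have hq1 : 0 ≤ q - 1 := by linarith
  set e : ℕ → ℝ := fun n => 1 / ((n : ℝ) + 1) with he
  have he0 : ∀ n, 0 < e n := fun n => by positivity
  have hel : Tendsto e atTop (𝓝 0) := tendsto_one_div_add_atTop_nhds_zero_nat
  have hmeas : ∀ n, Measurable fun z0 => ∫ z, f z * rk t z0 (e n) z := by
    intro n
    have h : StronglyMeasurable (Function.uncurry fun (z0 z : ℂ) => f z * rk t z0 (e n) z) := by
      have h1 : Measurable (Function.uncurry fun (z0 z : ℂ) => f z * rk t z0 (e n) z) :=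
        (hf.comp measurable_snd).mul (rk_cont t (he0 n)).measurable
      exact h1.stronglyMeasurable
    exact h.integral_prod_right.measurable
  refine fatou_le volume (fun n z0 => (‖t‖ₑ * ‖∫ z, f z * rk t z0 (e n) z‖ₑ) ^ q) _
    (fun n => ((hmeas n).enorm.const_mul _).pow_const q) _ (fun n => ?_)
    (Eventually.of_forall fun z0 => ?_)
  · -- the bound
    have hkm : Measurable fun z0 : ℂ => ∫⁻ z, ‖f z‖ₑ * KK (e n) (z - z0) := by
      have h1 : Measurable fun p : ℂ × ℂ => ‖f p.2‖ₑ * KK (e n) (p.2 - p.1) :=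
        (hf.comp measurable_snd).enorm.mul
          ((KK_meas (e n)).comp (measurable_snd.sub measurable_fst))
      exact h1.lintegral_prod_right'
    calc ∫⁻ z0, (‖t‖ₑ * ‖∫ z, f z * rk t z0 (e n) z‖ₑ) ^ q
        ≤ ∫⁻ z0, 2 ^ (q - 1) * ((∫⁻ z, ‖f z‖ₑ * KK (e n) (z - z0)) ^ q + pot ν a z0 ^ q) := by
          refine lintegral_mono fun z0 => ?_
          refine (ENNReal.rpow_le_rpow (core hfs hfi hw t z0 (he0 n)) (by linarith)).trans ?_
          exact add_rpow_le hq.le _ _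
      _ = 2 ^ (q - 1) * ((∫⁻ z0, (∫⁻ z, ‖f z‖ₑ * KK (e n) (z - z0)) ^ q) +
            ∫⁻ z0, pot ν a z0 ^ q) := by
          rw [lintegral_const_mul' _ _ (by
            exact (ENNReal.rpow_lt_top_of_nonneg hq1 (by simp)).ne),
            lintegral_add_left (hkm.pow_const q)]
      _ ≤ 2 ^ (q - 1) * (K * (∫⁻ z, ‖f z‖ₑ ^ q) + ∫⁻ z, pot ν a z ^ q) := by
          gcongr
          exact hK _ (he0 n) (fun z => ‖f z‖ₑ) hf.enorm
      _ ≤ 2 ^ (q - 1) * ((K + 1) * (∫⁻ z, ‖f z‖ₑ ^ q) + (K + 1) * ∫⁻ z, pot ν a z ^ q) := by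
          have h1 : (1 : ℝ≥0∞) ≤ K + 1 := le_add_self
          gcongr
          · exact le_self_add
          · calc ∫⁻ z, pot ν a z ^ q = 1 * ∫⁻ z, pot ν a z ^ q := (one_mul _).symm
              _ ≤ _ := by gcongr
      _ = _ := by
          rw [← mul_add, ← mul_assoc]
          congr 1
          push_cast
          rw [ENNReal.coe_rpow_of_nonneg _ hq1]
          rfl
  · -- convergence
    have h1 : Tendsto (fun n => ∫ z, f z * rk t z0 (e n) z) atTop (𝓝 (gg f t z0)) := by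
      refine tendsto_integral_of_dominated_convergence (fun z => ‖f z‖) (fun n => ?_) hfi.norm
        (fun n => Eventually.of_forall fun z => ?_) ?_
      · have hc1 : Continuous fun z => rk t z0 (e n) z :=
          (rk_cont t (he0 n)).comp (continuous_const.prodMk continuous_id)
        exact hf.aestronglyMeasurable.mul hc1.aestronglyMeasurable
      · rw [norm_mul]
        calc ‖f z‖ * ‖rk t z0 (e n) z‖ ≤ ‖f z‖ * 1 := by
              gcongr
              exact rk_norm t z0 (he0 n) z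
          _ = _ := mul_one _
      · have hnull : ∀ᵐ z : ℂ, z ≠ z0 := by
          rw [ae_iff]
          simp
        filter_upwards [hnull] with z hz
        have hne : (z - z0) * conj (z - z0) ≠ 0 := by
          rw [mul_conj, normSq_eq_norm_sq]
          have : 0 < ‖z - z0‖ := norm_pos_iff.2 (sub_ne_zero.2 hz)
          norm_cast
          positivity
        have h2 : Tendsto (fun n => (z - z0) * conj (z - z0) + ((e n : ℝ) : ℂ) ^ 2) atTop
            (𝓝 ((z - z0) * conj (z - z0))) := by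
          have h3 : Tendsto (fun n => ((e n : ℝ) : ℂ) ^ 2) atTop (𝓝 0) := by
            have := ((continuous_ofReal.tendsto 0).comp hel).pow 2
            simpa using this
          simpa using tendsto_const_nhds.add h3
        have h3 := (tendsto_const_nhds (x := (z - z0) * conj (z - z0))).mul (h2.inv₀ hne)
        rw [mul_inv_cancel₀ hne] at h3
        have h4 := (tendsto_const_nhds
          (x := cexp (-(I * t) * ((z - z0) * conj (z - z0))))).mul h3
        rw [mul_one] at h4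
        exact (tendsto_const_nhds (x := f z)).mul h4
    have h2 : Tendsto (fun n => ‖t‖ₑ * ‖∫ z, f z * rk t z0 (e n) z‖ₑ) atTop
        (𝓝 (‖t‖ₑ * ‖gg f t z0‖ₑ)) :=
      ENNReal.Tendsto.const_mul ((continuous_enorm.tendsto _).comp h1)
        (Or.inr enorm_ne_top)
    exact ((ENNReal.continuous_rpow_const (y := q)).tendsto _).comp h2

/-- Fourier extension operator of the paraboloid in `ℝ³ = ℂ × ℝ`:
`ext f (x,t) = ∫ exp(-i (z·x + t |z|²)) f(z) dz` -/
noncomputable def ext (f : ℂ → ℂ) (ξ : ℂ × ℝ) : ℂ :=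
  ∫ z : ℂ, cexp (-(((z.re * ξ.1.re + z.im * ξ.1.im + ‖z‖ ^ 2 * ξ.2 : ℝ) : ℂ) * I)) * f z

theorem ext_eq (f : ℂ → ℂ) (x : ℂ) {t : ℝ} (ht : t ≠ 0) :
    ‖ext f (x, t)‖ₑ = ‖gg f t ((-(2 * t)⁻¹ : ℝ) • x)‖ₑ := by
  set z0 : ℂ := (-(2 * t)⁻¹ : ℝ) • x with hz0
  have h1 : ∀ z : ℂ, cexp (-(((z.re * x.re + z.im * x.im + ‖z‖ ^ 2 * t : ℝ) : ℂ) * I)) * f z =
      cexp (((t * ‖z0‖ ^ 2 : ℝ) : ℂ) * I) *
        (f z * cexp (-(I * t) * ((z - z0) * conj (z - z0)))) := by
    intro z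
    have h2 : -(I * (t : ℂ)) * ((z - z0) * conj (z - z0)) =
        ((-(t * ‖z - z0‖ ^ 2) : ℝ) : ℂ) * I := by
      rw [mul_conj, normSq_eq_norm_sq]
      push_cast
      ring
    rw [h2, mul_comm (f z), ← mul_assoc, ← Complex.exp_add]
    congr 2
    rw [← add_mul, ← neg_mul]
    congr 1
    rw [← ofReal_neg, ← ofReal_add]
    congr 1
    have h3 : ‖z - z0‖ ^ 2 = (z.re - z0.re) ^ 2 + (z.im - z0.im) ^ 2 := by
      rw [← normSq_eq_norm_sq, normSq_apply]
      simp only [sub_re, sub_im]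
      ring
    have h4 : ‖z‖ ^ 2 = z.re ^ 2 + z.im ^ 2 := by
      rw [← normSq_eq_norm_sq, normSq_apply]
      ring
    have h5 : ‖z0‖ ^ 2 = z0.re ^ 2 + z0.im ^ 2 := by
      rw [← normSq_eq_norm_sq, normSq_apply]
      ring
    have h6 : z0.re = -(2 * t)⁻¹ * x.re := by
      rw [hz0, real_smul, re_ofReal_mul]
    have h7 : z0.im = -(2 * t)⁻¹ * x.im := by
      rw [hz0, real_smul, im_ofReal_mul]
    rw [h3, h4, h5, h6, h7]
    field_simp
    ring
  unfold ext gg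
  simp only
  rw [integral_congr_ae (Eventually.of_forall h1), integral_const_mul, enorm_mul]
  have h8 : ‖cexp (((t * ‖z0‖ ^ 2 : ℝ) : ℂ) * I)‖ₑ = 1 := by
    rw [← ofReal_norm, norm_exp_ofReal_mul_I, ENNReal.ofReal_one]
  rw [h8, one_mul]

theorem lint_smul (G : ℂ → ℝ≥0∞) (hG : Measurable G) {r : ℝ} (hr : r ≠ 0) :
    ∫⁻ x : ℂ, G (r • x) = ENNReal.ofReal ((r ^ 2)⁻¹) * ∫⁻ x, G x := by
  have h := Measure.map_addHaar_smul (volume : Measure ℂ) hr
  have h1 : ∫⁻ x : ℂ, G (r • x) = ∫⁻ x, G x ∂(Measure.map (fun x : ℂ => r • x) volume) := by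
    rw [lintegral_map hG (measurable_const_smul r)]
  rw [h1, show (fun x : ℂ => r • x) = (r • ·) from rfl, h, lintegral_smul_measure,
    Complex.finrank_real_complex, abs_of_pos (by positivity), smul_eq_mul]

theorem ext_meas (f : ℂ → ℂ) (hf : Measurable f) : Measurable (ext f) := by
  have h : StronglyMeasurable (Function.uncurry fun (ξ : ℂ × ℝ) (z : ℂ) =>
      cexp (-(((z.re * ξ.1.re + z.im * ξ.1.im + ‖z‖ ^ 2 * ξ.2 : ℝ) : ℂ) * I)) * f z) := by
    have h1 : Measurable (Function.uncurry fun (ξ : ℂ × ℝ) (z : ℂ) =>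
      cexp (-(((z.re * ξ.1.re + z.im * ξ.1.im + ‖z‖ ^ 2 * ξ.2 : ℝ) : ℂ) * I)) * f z) := by
      have h2 : Continuous fun p : (ℂ × ℝ) × ℂ =>
          cexp (-(((p.2.re * p.1.1.re + p.2.im * p.1.1.im + ‖p.2‖ ^ 2 * p.1.2 : ℝ) : ℂ) * I)) := by
        fun_prop
      exact h2.measurable.mul (hf.comp measurable_snd)
    exact h1.stronglyMeasurable
  exact h.integral_prod_right.measurable

/-- for `|t| ≥ 1` -/
theorem slice_large {q : ℝ} (hq : 1 < q) : ∃ C : ℝ≥0, ∀ (f a : ℂ → ℂ) (ν : Measure ℂ),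
    Measurable f → (∀ z, 1 / 2 ≤ ‖z‖ → f z = 0) → Integrable f → WD f ν a → ∀ t : ℝ, t ≠ 0 →
    ∫⁻ x, ‖ext f (x, t)‖ₑ ^ q ≤
      C * ENNReal.ofReal (|t| ^ (2 - q)) * ((∫⁻ z, ‖f z‖ₑ ^ q) + ∫⁻ z, pot ν a z ^ q) := by
  obtain ⟨C, hC⟩ := fixed_t hq
  refine ⟨4 * C, fun f a ν hf hfs hfi hw t ht => ?_⟩
  have h := hC f a ν hf hfs hfi hw t
  have ht0 : 0 < |t| := abs_pos.2 ht
  have h1 : ∫⁻ x, ‖ext f (x, t)‖ₑ ^ q =
      ENNReal.ofReal (4 * t ^ 2) * ∫⁻ z0, ‖gg f t z0‖ₑ ^ q := by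
    have hr : -(2 * t)⁻¹ ≠ 0 := by
      simp [ht]
    have := lint_smul (fun z0 => ‖gg f t z0‖ₑ ^ q) ((gg_meas f hf t).enorm.pow_const q) hr
    rw [show ((-(2 * t)⁻¹) ^ 2)⁻¹ = 4 * t ^ 2 by field_simp; norm_num] at this
    rw [← this]
    refine lintegral_congr fun x => ?_
    rw [ext_eq f x ht]
  have h2 : ∫⁻ z0, (‖t‖ₑ * ‖gg f t z0‖ₑ) ^ q = ENNReal.ofReal (|t| ^ q) *
      ∫⁻ z0, ‖gg f t z0‖ₑ ^ q := by
    rw [← lintegral_const_mul _ ((gg_meas f hf t).enorm.pow_const q)]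
    refine lintegral_congr fun z0 => ?_
    rw [ENNReal.mul_rpow_of_nonneg _ _ (by linarith), ← ofReal_norm, Real.norm_eq_abs,
      ENNReal.ofReal_rpow_of_pos ht0]
  rw [h2] at h
  rw [h1]
  have h3 : ENNReal.ofReal (4 * t ^ 2) =
      4 * ENNReal.ofReal (|t| ^ (2 - q)) * ENNReal.ofReal (|t| ^ q) := by
    rw [mul_assoc, ← ENNReal.ofReal_mul (by positivity), ← Real.rpow_add ht0]
    norm_num
  calc ENNReal.ofReal (4 * t ^ 2) * ∫⁻ z0, ‖gg f t z0‖ₑ ^ q
      = 4 * ENNReal.ofReal (|t| ^ (2 - q)) *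
        (ENNReal.ofReal (|t| ^ q) * ∫⁻ z0, ‖gg f t z0‖ₑ ^ q) := by
        rw [h3, mul_assoc]
    _ ≤ 4 * ENNReal.ofReal (|t| ^ (2 - q)) *
        (C * ((∫⁻ z, ‖f z‖ₑ ^ q) + ∫⁻ z, pot ν a z ^ q)) := by gcongr
    _ = _ := by
        push_cast
        ring

/-- Plancherel in `x` -/
theorem slice_planch (f : ℂ → ℂ) (hf : Measurable f) (hfi : Integrable f)
    (hf2 : ∫⁻ z, ‖f z‖ₑ ^ 2 ≠ ∞) (t : ℝ) :
    ∫⁻ x, ‖ext f (x, t)‖ₑ ^ 2 = ENNReal.ofReal ((2 * Real.pi) ^ 2) * ∫⁻ z, ‖f z‖ₑ ^ 2 := by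
  set h : ℂ → ℂ := fun z => cexp (-(((‖z‖ ^ 2 * t : ℝ) : ℂ) * I)) * f z with hh
  have hnorm : ∀ z, ‖h z‖ = ‖f z‖ := by
    intro z
    rw [hh]
    simp only
    rw [norm_mul, ← neg_mul, ← ofReal_neg, norm_exp_ofReal_mul_I, one_mul]
  have hc : Continuous fun z : ℂ => cexp (-(((‖z‖ ^ 2 * t : ℝ) : ℂ) * I)) := by fun_prop
  have hm : Measurable h := hc.measurable.mul hf
  have hi : Integrable h := by
    refine (integrable_norm_iff hm.aestronglyMeasurable).1 ?_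
    simp_rw [hnorm]
    exact hfi.norm
  have h2 : MemLp h 2 := by
    refine ⟨hm.aestronglyMeasurable, ?_⟩
    rw [eLpNorm_lt_top_iff_lintegral_rpow_enorm_lt_top (by norm_num) (by norm_num)]
    have : ∀ z, ‖h z‖ₑ ^ (2 : ℝ≥0∞).toReal = ‖f z‖ₑ ^ 2 := by
      intro z
      rw [← ofReal_norm, hnorm, ofReal_norm]
      norm_num
    simp_rw [this]
    exact hf2.lt_top
  obtain ⟨hF, hP⟩ := Pool.Agent.Helper390.Covario.plancherel hi h2
  have e1 : ∀ u : ℂ → ℂ, MemLp u 2 → ∫⁻ z, ‖u z‖ₑ ^ 2 = ENNReal.ofReal (∫ z, ‖u z‖ ^ 2) := by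
    intro u hu
    have h1 : Integrable (fun x => ‖u x‖ ^ 2) := (memLp_two_iff_integrable_sq_norm hu.1).1 hu
    rw [ofReal_integral_eq_lintegral_ofReal h1 (Eventually.of_forall fun x => by positivity)]
    refine lintegral_congr fun x => ?_
    rw [ENNReal.ofReal_pow (norm_nonneg _), ofReal_norm]
  have e2 : ∫⁻ z, ‖𝓕 h z‖ₑ ^ 2 = ∫⁻ z, ‖f z‖ₑ ^ 2 := by
    rw [e1 _ hF, hP, ← e1 _ h2]
    refine lintegral_congr fun z => ?_
    rw [← ofReal_norm, hnorm, ofReal_norm]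
  have hFm : Measurable (𝓕 h) := by
    have : Continuous (𝓕 h) :=
      VectorFourier.fourierIntegral_continuous Real.continuous_fourierChar continuous_inner hi
    exact this.measurable
  have e3 : ∀ x : ℂ, ext f (x, t) = 𝓕 h (((2 * Real.pi)⁻¹ : ℝ) • x) := by
    intro x
    rw [Real.fourier_eq']
    unfold ext
    refine integral_congr_ae (Eventually.of_forall fun z => ?_)
    simp only [hh, smul_eq_mul]
    rw [← mul_assoc, ← Complex.exp_add]
    congr 2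
    have h5 : ⟪z, ((2 * Real.pi)⁻¹ : ℝ) • x⟫ = (2 * Real.pi)⁻¹ * (z.re * x.re + z.im * x.im) := by
      rw [real_inner_smul_right, Complex.inner]
      simp only [mul_re, conj_re, conj_im]
      ring
    rw [h5]
    have hpi := Real.pi_ne_zero
    push_cast
    field_simp
    ring
  simp_rw [e3]
  rw [lint_smul (fun x => ‖𝓕 h x‖ₑ ^ 2) (hFm.enorm.pow_const 2) (by positivity), e2]
  congr 2
  field_simp

end Pool.Agent.Y251.CP
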