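import Pool.Agent.Y251.CP.D3
set_option autoImplicit false

/-! # Circle means: the mean value property and the inequality of M. Riesz, exponent four -/

namespace Pool.Agent.Y251.CP

open MeasureTheory Set Metric Complex Filter
open scoped ENNReal NNReal ComplexConjugate Topology

theorem circ_mean {H : ℂ → ℂ} {c : ℂ} {r s : ℝ} (hs : 0 < s) (hsr : s < r)
    (hH : DifferentiableOn ℂ H (ball c r)) :
    ∫ θ in Ioc (-Real.pi) Real.pi, H (c + s * cexp (θ * I)) = (2 * Real.pi) • H c := by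
  have h2 : DiffContOnCl ℂ H (ball c |s|) := by
    rw [abs_of_pos hs]
    apply DifferentiableOn.diffContOnCl
    rw [closure_ball _ hs.ne']
    exact hH.mono (closedBall_subset_ball hsr)
  have h3 := h2.circleAverage
  rw [Real.circleAverage_def] at h3
  have h4 : ∫ θ in (0 : ℝ)..2 * Real.pi, H (circleMap c s θ) =
      ∫ θ in (-Real.pi)..Real.pi, H (circleMap c s θ) := by
    have h5 := ((periodic_circleMap c s).comp H).intervalIntegral_add_eq 0 (-Real.pi)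
    rw [zero_add, show -Real.pi + 2 * Real.pi = Real.pi by ring] at h5
    exact h5
  rw [h4, intervalIntegral.integral_of_le (by linarith [Real.pi_pos])] at h3
  rw [← h3, smul_smul, mul_inv_cancel₀ (by positivity), one_smul]
  rfl

theorem pt_re (z : ℂ) : ‖z‖ ^ 4 ≤ 48 * z.re ^ 4 + 2 * (z ^ 4).re := by
  have h1 : ‖z‖ ^ 4 = (z.re ^ 2 + z.im ^ 2) ^ 2 := by
    rw [show ‖z‖ ^ 4 = (‖z‖ ^ 2) ^ 2 by ring, ← Complex.normSq_eq_norm_sq, Complex.normSq_apply]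
    ring
  have h2 : (z ^ 4).re = z.re ^ 4 - 6 * z.re ^ 2 * z.im ^ 2 + z.im ^ 4 := by
    simp only [pow_succ, pow_zero, one_mul, Complex.mul_re, Complex.mul_im]
    ring
  rw [h1, h2]
  nlinarith [sq_nonneg (7 * z.re ^ 2 - z.im ^ 2)]

theorem pt_im (z : ℂ) : ‖z‖ ^ 4 ≤ 48 * z.im ^ 4 + 2 * (z ^ 4).re := by
  have h1 : ‖z‖ ^ 4 = (z.re ^ 2 + z.im ^ 2) ^ 2 := by
    rw [show ‖z‖ ^ 4 = (‖z‖ ^ 2) ^ 2 by ring, ← Complex.normSq_eq_norm_sq, Complex.normSq_apply]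
    ring
  have h2 : (z ^ 4).re = z.re ^ 4 - 6 * z.re ^ 2 * z.im ^ 2 + z.im ^ 4 := by
    simp only [pow_succ, pow_zero, one_mul, Complex.mul_re, Complex.mul_im]
    ring
  rw [h1, h2]
  nlinarith [sq_nonneg (7 * z.im ^ 2 - z.re ^ 2)]

theorem pt_convex (a b : ℂ) : ‖a‖ ^ 4 + 4 * ‖a‖ ^ 2 * (conj a * (b - a)).re ≤ ‖b‖ ^ 4 := by
  have h1 : (conj a * (b - a)).re ≤ ‖a‖ * ‖b‖ - ‖a‖ ^ 2 := by
    have h2 : (conj a * (b - a)).re = (conj a * b).re - ‖a‖ ^ 2 := by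
      rw [mul_sub, Complex.sub_re, ← Complex.normSq_eq_norm_sq, Complex.normSq_apply]
      simp
    rw [h2]
    have h3 : (conj a * b).re ≤ ‖a‖ * ‖b‖ := by
      refine (Complex.re_le_norm _).trans ?_
      rw [norm_mul, RCLike.norm_conj]
    linarith
  have h4 := norm_nonneg a
  have h5 := norm_nonneg b
  have h6 : 4 * ‖a‖ ^ 2 * (conj a * (b - a)).re ≤ 4 * ‖a‖ ^ 2 * (‖a‖ * ‖b‖ - ‖a‖ ^ 2) := by gcongr
  have h7 : 0 ≤ (‖a‖ - ‖b‖) ^ 2 * (3 * ‖a‖ ^ 2 + 2 * ‖a‖ * ‖b‖ + ‖b‖ ^ 2) := by positivity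
  nlinarith

theorem pt_add4 (a b : ℂ) : ‖a + b‖ ^ 4 ≤ 8 * ‖a‖ ^ 4 + 8 * ‖b‖ ^ 4 := by
  have h1 : ‖a + b‖ ^ 4 ≤ (‖a‖ + ‖b‖) ^ 4 := by
    gcongr
    exact norm_add_le _ _
  have h2 : (‖a‖ + ‖b‖) ^ 2 ≤ 2 * ‖a‖ ^ 2 + 2 * ‖b‖ ^ 2 := by nlinarith [sq_nonneg (‖a‖ - ‖b‖)]
  have h3 : (‖a‖ + ‖b‖) ^ 4 ≤ (2 * ‖a‖ ^ 2 + 2 * ‖b‖ ^ 2) ^ 2 := by
    calc (‖a‖ + ‖b‖) ^ 4 = ((‖a‖ + ‖b‖) ^ 2) ^ 2 := by ring
      _ ≤ _ := by gcongr
  nlinarith [sq_nonneg (‖a‖ ^ 2 - ‖b‖ ^ 2)]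

/-- abstract form of the inequality of M. Riesz, exponent four -/
theorem riesz4 {f g : ℝ → ℂ} (hf : Continuous f) (hg : Continuous g) (f0 g0 : ℂ)
    (m1 : ∫ θ in Ioc (-Real.pi) Real.pi, f θ = (2 * Real.pi) • f0)
    (m2 : ∫ θ in Ioc (-Real.pi) Real.pi, g θ = (2 * Real.pi) • g0)
    (m3 : ∫ θ in Ioc (-Real.pi) Real.pi, ((f θ - f0) + (g θ - g0)) ^ 4 = 0)
    (m4 : ∫ θ in Ioc (-Real.pi) Real.pi, ((f θ - f0) - (g θ - g0)) ^ 4 = 0) :
    (∫ θ in Ioc (-Real.pi) Real.pi, ‖f θ - f0‖ ^ 4 ≤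
      768 * ∫ θ in Ioc (-Real.pi) Real.pi, ‖f θ + conj (g θ)‖ ^ 4) ∧
    (∫ θ in Ioc (-Real.pi) Real.pi, ‖g θ - g0‖ ^ 4 ≤
      768 * ∫ θ in Ioc (-Real.pi) Real.pi, ‖f θ + conj (g θ)‖ ^ 4) ∧
    2 * Real.pi * ‖f0 + conj g0‖ ^ 4 ≤
      ∫ θ in Ioc (-Real.pi) Real.pi, ‖f θ + conj (g θ)‖ ^ 4 := by
  have hpi := Real.pi_pos
  set μ : Measure ℝ := volume.restrict (Ioc (-Real.pi) Real.pi) with hμ
  have hμu : μ.real univ = 2 * Real.pi := by
    rw [hμ, measureReal_restrict_apply MeasurableSet.univ, univ_inter, Real.volume_real_Ioc_of_le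
      (by linarith)]
    ring
  have int : ∀ h : ℝ → ℂ, Continuous h → Integrable h μ := fun h hh =>
    hh.integrableOn_Ioc
  have intr : ∀ h : ℝ → ℝ, Continuous h → Integrable h μ := fun h hh =>
    hh.integrableOn_Ioc
  have hgc : Continuous fun θ => conj (g θ) := continuous_conj.comp hg
  set u : ℝ → ℂ := fun θ => f θ + conj (g θ) with hu
  set u0 : ℂ := f0 + conj g0 with hu0
  have huc : Continuous u := hf.add hgc
  have hmean : ∫ θ, u θ ∂μ = (2 * Real.pi) • u0 := by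
    rw [hu, integral_add (int _ hf) (int _ hgc), m1, integral_conj, m2, hu0, smul_add]
    congr 1
    rw [Complex.real_smul, Complex.real_smul, map_mul, Complex.conj_ofReal]
  have i4 : Integrable (fun θ => ‖u θ‖ ^ 4) μ := intr _ (huc.norm.pow 4)
  have h3 : 2 * Real.pi * ‖u0‖ ^ 4 ≤ ∫ θ, ‖u θ‖ ^ 4 ∂μ := by
    have i5 : Integrable (fun θ => conj u0 * (u θ - u0)) μ :=
      int _ (continuous_const.mul (huc.sub continuous_const))
    have i6 : Integrable (fun θ => (conj u0 * (u θ - u0)).re) μ := i5.re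
    have h4 : ∫ θ, (conj u0 * (u θ - u0)).re ∂μ = 0 := by
      have h5 := integral_re i5
      simp only [RCLike.re_eq_complex_re] at h5
      rw [h5, integral_const_mul, integral_sub (int _ huc) (integrable_const u0), hmean,
        integral_const, hμu, sub_self, mul_zero, Complex.zero_re]
    have h6 : ∫ θ, (‖u0‖ ^ 4 + 4 * ‖u0‖ ^ 2 * (conj u0 * (u θ - u0)).re) ∂μ ≤
        ∫ θ, ‖u θ‖ ^ 4 ∂μ :=
      integral_mono ((integrable_const _).add (i6.const_mul _)) i4 fun w => pt_convex u0 (u w)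
    rw [integral_add (integrable_const _) (i6.const_mul _), integral_const_mul, h4, mul_zero,
      add_zero, integral_const, hμu, smul_eq_mul] at h6
    exact h6
  have id4 : Integrable (fun θ => ‖u θ - u0‖ ^ 4) μ :=
    intr _ ((huc.sub continuous_const).norm.pow 4)
  have hd : ∫ θ, ‖u θ - u0‖ ^ 4 ∂μ ≤ 16 * ∫ θ, ‖u θ‖ ^ 4 ∂μ := by
    have h4 : ∫ θ, ‖u θ - u0‖ ^ 4 ∂μ ≤ ∫ θ, (8 * ‖u θ‖ ^ 4 + 8 * ‖u0‖ ^ 4) ∂μ := by
      refine integral_mono id4 ((i4.const_mul 8).add (integrable_const _)) fun w => ?_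
      have h5 := pt_add4 (u w) (-u0)
      rw [norm_neg, ← sub_eq_add_neg] at h5
      exact h5
    rw [integral_add (i4.const_mul 8) (integrable_const _), integral_const_mul,
      integral_const, hμu, smul_eq_mul] at h4
    linarith
  -- the two combinations
  set A : ℝ → ℂ := fun θ => (f θ - f0) + (g θ - g0) with hA
  set B : ℝ → ℂ := fun θ => (f θ - f0) - (g θ - g0) with hB
  have hAc : Continuous A := (hf.sub continuous_const).add (hg.sub continuous_const)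
  have hBc : Continuous B := (hf.sub continuous_const).sub (hg.sub continuous_const)
  have reA : ∀ θ, (A θ).re = (u θ - u0).re := by
    intro θ
    simp only [hA, hu, hu0, add_re, sub_re, conj_re]
    ring
  have imB : ∀ θ, (B θ).im = (u θ - u0).im := by
    intro θ
    simp only [hB, hu, hu0, add_im, sub_im, conj_im]
    ring
  have z3 : ∫ θ, (A θ ^ 4).re ∂μ = 0 := by
    have h4 := integral_re (int (fun θ => A θ ^ 4) (hAc.pow 4))
    simp only [RCLike.re_eq_complex_re] at h4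
    rw [h4, m3, Complex.zero_re]
  have z4 : ∫ θ, (B θ ^ 4).re ∂μ = 0 := by
    have h4 := integral_re (int (fun θ => B θ ^ 4) (hBc.pow 4))
    simp only [RCLike.re_eq_complex_re] at h4
    rw [h4, m4, Complex.zero_re]
  have iRA : Integrable (fun θ => (A θ ^ 4).re) μ := intr _ (continuous_re.comp (hAc.pow 4))
  have iRB : Integrable (fun θ => (B θ ^ 4).re) μ := intr _ (continuous_re.comp (hBc.pow 4))
  have pw : ∀ x y : ℝ, |x| ≤ y → x ^ 4 ≤ y ^ 4 := by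
    intro x y h
    have h1 : x ^ 4 = |x| ^ 4 := (Even.pow_abs (by decide) x).symm
    rw [h1]
    exact pow_le_pow_left₀ (abs_nonneg _) h 4
  have bA : ∫ θ, ‖A θ‖ ^ 4 ∂μ ≤ 48 * ∫ θ, ‖u θ - u0‖ ^ 4 ∂μ := by
    have h1 : ∫ θ, ‖A θ‖ ^ 4 ∂μ ≤ ∫ θ, (48 * ‖u θ - u0‖ ^ 4 + 2 * (A θ ^ 4).re) ∂μ := by
      refine integral_mono (intr _ (hAc.norm.pow 4)) ((id4.const_mul 48).add
        (iRA.const_mul 2)) fun θ => ?_
      refine (pt_re (A θ)).trans ?_
      rw [reA θ]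
      have h5 := pw _ _ (abs_re_le_norm (u θ - u0))
      linarith
    rw [integral_add (id4.const_mul 48) (iRA.const_mul 2), integral_const_mul,
      integral_const_mul, z3] at h1
    linarith
  have bB : ∫ θ, ‖B θ‖ ^ 4 ∂μ ≤ 48 * ∫ θ, ‖u θ - u0‖ ^ 4 ∂μ := by
    have h1 : ∫ θ, ‖B θ‖ ^ 4 ∂μ ≤ ∫ θ, (48 * ‖u θ - u0‖ ^ 4 + 2 * (B θ ^ 4).re) ∂μ := by
      refine integral_mono (intr _ (hBc.norm.pow 4)) ((id4.const_mul 48).add
        (iRB.const_mul 2)) fun θ => ?_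
      refine (pt_im (B θ)).trans ?_
      rw [imB θ]
      have h5 := pw _ _ (abs_im_le_norm (u θ - u0))
      linarith
    rw [integral_add (id4.const_mul 48) (iRB.const_mul 2), integral_const_mul,
      integral_const_mul, z4] at h1
    linarith
  have iA : Integrable (fun θ => ‖A θ‖ ^ 4) μ := intr _ (hAc.norm.pow 4)
  have iB : Integrable (fun θ => ‖B θ‖ ^ 4) μ := intr _ (hBc.norm.pow 4)
  have half : ∀ a b x : ℂ, 2 * x = a + b → ‖x‖ ^ 4 ≤ ‖a‖ ^ 4 / 2 + ‖b‖ ^ 4 / 2 := by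
    intro a b x h
    have h1 := pt_add4 a b
    rw [← h, norm_mul] at h1
    norm_num [mul_pow] at h1
    linarith
  refine ⟨?_, ?_, h3⟩
  · have h1 : ∫ θ, ‖f θ - f0‖ ^ 4 ∂μ ≤ ∫ θ, (‖A θ‖ ^ 4 / 2 + ‖B θ‖ ^ 4 / 2) ∂μ := by
      refine integral_mono (intr _ ((hf.sub continuous_const).norm.pow 4))
        ((iA.div_const 2).add (iB.div_const 2)) fun θ => half _ _ _ ?_
      simp only [hA, hB]
      ring
    rw [integral_add (iA.div_const 2) (iB.div_const 2), integral_div, integral_div] at h1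
    linarith
  · have h1 : ∫ θ, ‖g θ - g0‖ ^ 4 ∂μ ≤ ∫ θ, (‖A θ‖ ^ 4 / 2 + ‖B θ‖ ^ 4 / 2) ∂μ := by
      refine integral_mono (intr _ ((hg.sub continuous_const).norm.pow 4))
        ((iA.div_const 2).add (iB.div_const 2)) fun θ => ?_
      have h5 := half (A θ) (-(B θ)) (g θ - g0) (by
        simp only [hA, hB]
        ring)
      rw [norm_neg] at h5
      exact h5
    rw [integral_add (iA.div_const 2) (iB.div_const 2), integral_div, integral_div] at h1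
    linarith

theorem circ_cont {F : ℂ → ℂ} {c : ℂ} {r s : ℝ} (hs : 0 < s) (hsr : s < r)
    (hF : ContinuousOn F (ball c r)) : Continuous fun θ : ℝ => F (c + s * cexp (θ * I)) := by
  have h1 : Continuous fun θ : ℝ => c + s * cexp (θ * I) := by fun_prop
  refine hF.comp_continuous h1 fun θ => ?_
  rw [mem_ball, dist_eq_norm, add_sub_cancel_left, norm_mul, norm_exp_ofReal_mul_I, mul_one,
    norm_real, Real.norm_of_nonneg hs.le]
  exact hsr

/-- **M. Riesz's inequality on circles, exponent four** -/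
theorem riesz_circ {F G : ℂ → ℂ} {c : ℂ} {r s : ℝ} (hs : 0 < s) (hsr : s < r)
    (hF : DifferentiableOn ℂ F (ball c r)) (hG : DifferentiableOn ℂ G (ball c r)) :
    (∫ θ in Ioc (-Real.pi) Real.pi, ‖F (c + s * cexp (θ * I)) - F c‖ ^ 4 ≤
      768 * ∫ θ in Ioc (-Real.pi) Real.pi,
        ‖F (c + s * cexp (θ * I)) + conj (G (c + s * cexp (θ * I)))‖ ^ 4) ∧
    (∫ θ in Ioc (-Real.pi) Real.pi, ‖G (c + s * cexp (θ * I)) - G c‖ ^ 4 ≤
      768 * ∫ θ in Ioc (-Real.pi) Real.pi,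
        ‖F (c + s * cexp (θ * I)) + conj (G (c + s * cexp (θ * I)))‖ ^ 4) ∧
    2 * Real.pi * ‖F c + conj (G c)‖ ^ 4 ≤ ∫ θ in Ioc (-Real.pi) Real.pi,
        ‖F (c + s * cexp (θ * I)) + conj (G (c + s * cexp (θ * I)))‖ ^ 4 := by
  have hFd : DifferentiableOn ℂ (fun z => F z - F c) (ball c r) := hF.sub_const _
  have hGd : DifferentiableOn ℂ (fun z => G z - G c) (ball c r) := hG.sub_const _
  refine riesz4 (circ_cont hs hsr hF.continuousOn) (circ_cont hs hsr hG.continuousOn) (F c) (G c)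
    (circ_mean hs hsr hF) (circ_mean hs hsr hG) ?_ ?_
  · have h := circ_mean hs hsr ((hFd.add hGd).pow 4)
    refine (Eq.trans ?_ h).trans ?_
    · rfl
    · simp
  · have h := circ_mean hs hsr ((hFd.sub hGd).pow 4)
    refine (Eq.trans ?_ h).trans ?_
    · rfl
    · simp

end Pool.Agent.Y251.CP
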